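import Pool.Agent.Lib.MP_ae5b4e_an_A1.Defs
import Pool.Agent.Lib.MP_ae5b4e_an_A4.Ext

/-!
# MP_ae5b4e_an, POR (iii), STEP A, block A3 (mode calculus): definitions
-/

set_option autoImplicit false

noncomputable section

namespace Pool.Agent.MP_ae5b4e_an_A3

open Complex Set Filter Topology Metric
open Pool.Agent.MP_ae5b4e_an_A1 (tr Str BC)
open Pool.Agent.MP_ae5b4e_an_A4 (am Per SN RT)

/-- `F` in the variable `ζ = θ / ε` -/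
def rs (ε : ℝ) (F : ℂ × ℂ → ℂ) (p : ℂ × ℂ) : ℂ := F ((ε : ℂ) * p.1, p.2)

/-- the `m`-th Fourier coefficient of the `ε`-periodic function `F (·, γ)` at the height `y`:
`∫₀¹ F (ε x + i y, γ) exp (- 2 π i m (x + i y / ε)) dx`. The first mode of the kicks is `m = -1`. -/
def md (ε y : ℝ) (F : ℂ × ℂ → ℂ) (m : ℤ) (γ : ℂ) : ℂ := am (rs ε F) (y / ε) m γ

/-- The first mode of the kicks `B n` is deficient near `g₀` with respect to the branch height `Y`. -/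
def Dfc (U : Ultrafilter ℕ) (ε : ℕ → ℝ) (y : ℝ) (Y : ℂ → ℝ) (g₀ : ℂ) (B : ℕ → ℂ × ℂ → ℂ) : Prop :=
  ∃ c : ℝ, 0 < c ∧ ∃ ρ : ℝ, 0 < ρ ∧ ∀ᶠ n in (U : Filter ℕ), ∀ γ ∈ ball g₀ ρ,
    ‖md (ε n) y (B n) (-1) γ‖ ≤ Real.exp (-(2 * Real.pi / ε n * (Y γ + c)))

end Pool.Agent.MP_ae5b4e_an_A3
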