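import Pool.Agent.Lib.MP_ae5b4e_an_A3.Defs

/-! # A3: the finite part of the argument (rates with slopes, maximum principle) -/

set_option autoImplicit false

noncomputable section

namespace Pool.Agent.MP_ae5b4e_an_A3

open Complex Set Filter Topology Metric
open Pool.Agent.MP_ae5b4e_an_A1 (tr Str BC)
open Pool.Agent.MP_ae5b4e_an_MERO (fo St fo_indep norm_fo_le hasSum_fo)
open Pool.Agent.MP_ae5b4e_an_A4 (am Per SN RT Hh mode_max Hh_le)

/-- The affine minorant of the heights: `y₀ - α x - s y - C |y| - K |z| ^ 2`,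
`z = γ - g₀ = x + i y`. -/
def low (y₀ α s C K : ℝ) (g₀ γ : ℂ) : ℝ :=
  y₀ - α * (γ - g₀).re - s * (γ - g₀).im - C * |(γ - g₀).im| - K * ‖γ - g₀‖ ^ 2

/-- `Per` for the rescaled components. Proof. As `A4.per_of`. -/
theorem per_rs {e κ y₁ r ρ : ℝ} {g₀ : ℂ} {T S : ℂ → ℝ} {F : ℂ × ℂ → ℂ} (he : 0 < e) (hρ : ρ ≤ r)
    (hST : ∀ γ ∈ ball g₀ ρ, S γ ≤ T γ) (han : AnalyticOnNhd ℂ F (Str y₁ T g₀ r))
    (hper : ∀ p, F (tr (e : ℂ) p) = F p) (hbd : ∀ p ∈ Str y₁ T g₀ r, ‖F p‖ ≤ κ) :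
    Per (1 / e) y₁ κ S g₀ ρ (rs e F) := by
  have hm : ∀ p ∈ SN (1 / e) y₁ S g₀ ρ, ((e : ℂ) * p.1, p.2) ∈ Str y₁ T g₀ r := by
    rintro p ⟨h1, h2, h3⟩
    have him : ((e : ℂ) * p.1).im = e * p.1.im := by simp
    rw [one_div, inv_mul_lt_iff₀ he] at h2
    rw [one_div, lt_inv_mul_iff₀ he] at h3
    exact ⟨ball_subset_ball hρ h1, by rw [him]; exact h2,
      by rw [him]; exact h3.trans_le (hST _ h1)⟩
  refine ⟨fun p hp => ?_, fun p _ => ?_, fun p hp => ?_⟩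
  · exact AnalyticAt.comp (g := F) (f := fun p : ℂ × ℂ => ((e : ℂ) * p.1, p.2))
      (han _ (hm p hp)) ((analyticAt_const.mul analyticAt_fst).prod analyticAt_snd)
  · show F ((e : ℂ) * (p.1 + 1), p.2) = F ((e : ℂ) * p.1, p.2)
    rw [← hper ((e : ℂ) * p.1, p.2)]
    congr 1
    ext
    · simp [tr]
      ring
    · simp [tr]
  · exact hbd _ (hm p hp)

private theorem Fin_exp_le {N κ x y : ℝ} (hN : 0 ≤ N) (hκ : 0 ≤ κ) (h : -x ≤ y) :
    κ * Real.exp (-(2 * Real.pi * N * x)) ≤ κ * Real.exp (2 * Real.pi * N * y) := by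
  refine mul_le_mul_of_nonneg_left (Real.exp_le_exp.2 ?_) hκ
  have h1 : 0 ≤ 2 * Real.pi * N := by positivity
  have h2 := mul_le_mul_of_nonneg_left h h1
  linarith

private theorem Fin_G_bound {P : ℕ} {y₀ α δ K C r1 t0 tP ϑ μ η N κ : ℝ} {s : ℕ → ℝ} {g₀ γ : ℂ}
    {a J E : ℕ → ℂ} (hμ : 0 ≤ μ) (hη : 0 ≤ η) (hN : 0 ≤ N) (hκ : 0 ≤ κ) (hK : 0 ≤ K)
    (h0 : t0 + C ≤ ϑ - μ) (h1 : ϑ + μ ≤ tP - C) (hs : ∀ i < P, s i ≤ ϑ - μ ∨ ϑ + μ ≤ s i)
    (hδ : (|α| + |ϑ| + μ) * r1 ≤ δ) (hγ : ‖γ - g₀‖ = r1)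
    (hrec : ∀ i < P, a (i + 1) = a i + J i + E i)
    (hJ : ∀ i < P, ‖J i‖ ≤ κ * Real.exp (-(2 * Real.pi * N * (low y₀ α (s i) 0 K g₀ γ - η))))
    (hE : ∀ i < P, ‖E i‖ ≤ κ * Real.exp (-(2 * Real.pi * N * (y₀ + δ))))
    (ha0 : ‖a 0‖ ≤ κ * Real.exp (-(2 * Real.pi * N * (low y₀ α t0 C K g₀ γ - η))))
    (haP : ‖a P‖ ≤ κ * Real.exp (-(2 * Real.pi * N * (low y₀ α tP C K g₀ γ - η)))) :
    ‖a 0 + ∑ i ∈ (Finset.range P).filter (fun i => s i < ϑ), J i‖ ≤
      ((2 * P + 2) * κ) * Real.exp (2 * Real.pi * N * RT (-y₀ + η) α ϑ μ K g₀ γ) := by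
  obtain ⟨M, hM⟩ : ∃ M, M = κ * Real.exp (2 * Real.pi * N * RT (-y₀ + η) α ϑ μ K g₀ γ) :=
    ⟨_, rfl⟩
  have hM0 : 0 ≤ M := by
    rw [hM]
    positivity
  have hPM : 0 ≤ (P : ℝ) * M := by positivity
  have hgoal : ((2 * P + 2) * κ) * Real.exp (2 * Real.pi * N * RT (-y₀ + η) α ϑ μ K g₀ γ) =
      (2 * P + 2) * M := by
    rw [hM]
    ring
  rw [hgoal]
  rcases le_total 0 (γ - g₀).im with hy | hy
  · have e0 : ‖a 0‖ ≤ M := by
      refine ha0.trans ?_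
      rw [hM]
      refine Fin_exp_le hN hκ ?_
      unfold low RT
      rw [abs_of_nonneg hy]
      have := mul_le_mul_of_nonneg_right h0 hy
      linarith
    have e1 : ∀ i ∈ (Finset.range P).filter (fun i => s i < ϑ), ‖J i‖ ≤ M := by
      intro i hi
      rw [Finset.mem_filter, Finset.mem_range] at hi
      have h2 : s i ≤ ϑ - μ := by
        rcases hs i hi.1 with h | h
        · exact h
        · linarith [hi.2]
      refine (hJ i hi.1).trans ?_
      rw [hM]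
      refine Fin_exp_le hN hκ ?_
      unfold low RT
      rw [abs_of_nonneg hy]
      have := mul_le_mul_of_nonneg_right h2 hy
      linarith
    have e2 := norm_sum_le_of_le _ e1
    rw [Finset.sum_const, nsmul_eq_mul] at e2
    have e3 : (((Finset.range P).filter (fun i => s i < ϑ)).card : ℝ) ≤ P := by
      have := Finset.card_filter_le (Finset.range P) (fun i => s i < ϑ)
      rw [Finset.card_range] at this
      exact_mod_cast this
    have e4 := mul_le_mul_of_nonneg_right e3 hM0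
    have e5 := norm_add_le (a 0) (∑ i ∈ (Finset.range P).filter (fun i => s i < ϑ), J i)
    nlinarith
  · have e0 : ‖a P‖ ≤ M := by
      refine haP.trans ?_
      rw [hM]
      refine Fin_exp_le hN hκ ?_
      unfold low RT
      rw [abs_of_nonpos hy]
      have := mul_le_mul_of_nonpos_right h1 hy
      linarith
    have e1 : ∀ i ∈ (Finset.range P).filter (fun i => ¬ s i < ϑ), ‖J i‖ ≤ M := by
      intro i hi
      rw [Finset.mem_filter, Finset.mem_range, not_lt] at hi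
      have h2 : ϑ + μ ≤ s i := by
        rcases hs i hi.1 with h | h
        · rcases hμ.eq_or_lt with h3 | h3
          · linarith [hi.2]
          · linarith [hi.2]
        · exact h
      refine (hJ i hi.1).trans ?_
      rw [hM]
      refine Fin_exp_le hN hκ ?_
      unfold low RT
      rw [abs_of_nonpos hy]
      have := mul_le_mul_of_nonpos_right h2 hy
      linarith
    have e1' : ∀ i ∈ Finset.range P, ‖E i‖ ≤ M := by
      intro i hi
      refine (hE i (Finset.mem_range.1 hi)).trans ?_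
      rw [hM]
      refine Fin_exp_le hN hκ ?_
      unfold RT
      have z0 := norm_nonneg (γ - g₀)
      have z1 : |(γ - g₀).re| ≤ r1 := (abs_re_le_norm _).trans hγ.le
      have z2 : |(γ - g₀).im| ≤ r1 := (abs_im_le_norm _).trans hγ.le
      have z3 : -(|α| * r1) ≤ α * (γ - g₀).re := by
        have h2 := neg_abs_le (α * (γ - g₀).re)
        rw [abs_mul] at h2
        have h3 := mul_le_mul_of_nonneg_left z1 (abs_nonneg α)
        linarith
      have z4 : -(|ϑ| * r1) ≤ ϑ * (γ - g₀).im := by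
        have h2 := neg_abs_le (ϑ * (γ - g₀).im)
        rw [abs_mul] at h2
        have h3 := mul_le_mul_of_nonneg_left z2 (abs_nonneg ϑ)
        linarith
      have z5 := mul_le_mul_of_nonneg_left z2 hμ
      have z6 : 0 ≤ K * ‖γ - g₀‖ ^ 2 := by positivity
      linarith
    have e2 := norm_sum_le_of_le _ e1
    have e2' := norm_sum_le_of_le _ e1'
    rw [Finset.sum_const, nsmul_eq_mul] at e2 e2'
    rw [Finset.card_range] at e2'
    have e3 : (((Finset.range P).filter (fun i => ¬ s i < ϑ)).card : ℝ) ≤ P := by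
      have := Finset.card_filter_le (Finset.range P) (fun i => ¬ s i < ϑ)
      rw [Finset.card_range] at this
      exact_mod_cast this
    have e4 := mul_le_mul_of_nonneg_right e3 hM0
    have hsum : ∀ k ≤ P, a k = a 0 + ∑ i ∈ Finset.range k, (J i + E i) := by
      intro k
      induction k with
      | zero =>
        intro _
        simp
      | succ k ih =>
        intro hk
        rw [hrec k (by omega), ih (by omega), Finset.sum_range_succ]
        ring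
    have e6 := hsum P le_rfl
    rw [Finset.sum_add_distrib, ← Finset.sum_filter_add_sum_filter_not (Finset.range P)
      (fun i => s i < ϑ) J] at e6
    have e7 : a 0 + ∑ i ∈ (Finset.range P).filter (fun i => s i < ϑ), J i =
        a P - ∑ i ∈ (Finset.range P).filter (fun i => ¬ s i < ϑ), J i -
          ∑ i ∈ Finset.range P, E i := by
      rw [e6]
      ring
    rw [e7]
    have e8 := norm_sub_le (a P - ∑ i ∈ (Finset.range P).filter (fun i => ¬ s i < ϑ), J i)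
      (∑ i ∈ Finset.range P, E i)
    have e9 := norm_sub_le (a P) (∑ i ∈ (Finset.range P).filter (fun i => ¬ s i < ϑ), J i)
    nlinarith

private theorem Fin_core {P j : ℕ} (hj : j < P) {y₀ α δ K C r1 ρ ρ' t0 tP μ η N κ : ℝ}
    {s : ℕ → ℝ} {g₀ : ℂ} (hμ : 0 < μ) (hη : 0 ≤ η) (hN : 0 ≤ N) (hκ : 0 ≤ κ) (hK : 0 ≤ K)
    (hr1 : 0 < r1) (hr1ρ : r1 < ρ) (h0 : t0 + C ≤ s j - 2 * μ) (h1 : s j + 2 * μ ≤ tP - C)
    (hs : ∀ i < P, i ≠ j → 2 * μ ≤ |s i - s j|) (hδ : (|α| + |s j| + 2 * μ) * r1 ≤ δ)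
    (hKr : K * r1 ≤ μ / 8) (hρ0 : 0 ≤ ρ') (hρ1 : (|α| + |s j| + μ) * ρ' ≤ μ * r1 / 32)
    (hρ2 : ρ' ≤ r1 / 4) {a J E : ℕ → ℂ → ℂ} (had : DifferentiableOn ℂ (a 0) (ball g₀ ρ))
    (hJd : ∀ i < P, DifferentiableOn ℂ (J i) (ball g₀ ρ))
    (hrec : ∀ i < P, ∀ γ ∈ ball g₀ ρ, a (i + 1) γ = a i γ + J i γ + E i γ)
    (hJ : ∀ i < P, ∀ γ ∈ ball g₀ ρ, ‖J i γ‖ ≤
      κ * Real.exp (-(2 * Real.pi * N * (low y₀ α (s i) 0 K g₀ γ - η))))
    (hE : ∀ i < P, ∀ γ ∈ ball g₀ ρ, ‖E i γ‖ ≤ κ * Real.exp (-(2 * Real.pi * N * (y₀ + δ))))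
    (ha0 : ∀ γ ∈ ball g₀ ρ, ‖a 0 γ‖ ≤
      κ * Real.exp (-(2 * Real.pi * N * (low y₀ α t0 C K g₀ γ - η))))
    (haP : ∀ γ ∈ ball g₀ ρ, ‖a P γ‖ ≤
      κ * Real.exp (-(2 * Real.pi * N * (low y₀ α tP C K g₀ γ - η)))) :
    ∀ γ ∈ ball g₀ ρ', ‖J j γ‖ ≤
      (4 * P + 4) * κ * Real.exp (2 * Real.pi * N * (-y₀ + η - μ * r1 / 4)) := by
  have key : ∀ ϑ : ℝ, |ϑ| ≤ |s j| + μ → t0 + C ≤ ϑ - μ → ϑ + μ ≤ tP - C →
      (∀ i < P, s i ≤ ϑ - μ ∨ ϑ + μ ≤ s i) → ∀ γ ∈ ball g₀ ρ',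
      ‖a 0 γ + ∑ i ∈ (Finset.range P).filter (fun i => s i < ϑ), J i γ‖ ≤
        ((2 * P + 2) * κ) * Real.exp (2 * Real.pi * N * (-y₀ + η - μ * r1 / 4)) := by
    intro ϑ hϑ g0 g1 g2 γ hγ
    rw [mem_ball, dist_eq_norm] at hγ
    have hd : DifferentiableOn ℂ (fun γ => a 0 γ +
        ∑ i ∈ (Finset.range P).filter (fun i => s i < ϑ), J i γ) (ball g₀ ρ) := by
      refine had.add ?_
      refine DifferentiableOn.fun_sum fun i hi => ?_
      rw [Finset.mem_filter, Finset.mem_range] at hi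
      exact hJd i hi.1
    have h2 := mode_max (a := fun γ => a 0 γ +
        ∑ i ∈ (Finset.range P).filter (fun i => s i < ϑ), J i γ) (g0 := g₀) (s := ρ) (r1 := r1)
      (κ := (2 * P + 2) * κ) (K := 2 * Real.pi * N) (R0 := -y₀ + η) (α := α) (β := ϑ) (μ := μ)
      (B := K) hr1 hr1ρ hμ.le (by positivity) (by positivity) hd (by
        intro w hw
        have hwb : w ∈ ball g₀ ρ := by
          rw [mem_ball, dist_eq_norm, hw]
          exact hr1ρ
        refine Fin_G_bound (a := fun i => a i w) (J := fun i => J i w) (E := fun i => E i w)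
          hμ.le hη hN hκ hK g0 g1 g2 ?_ hw (fun i hi => hrec i hi w hwb)
          (fun i hi => hJ i hi w hwb) (fun i hi => hE i hi w hwb) (ha0 w hwb) (haP w hwb)
        exact le_trans (mul_le_mul_of_nonneg_right (by linarith) hr1.le) hδ) (γ := γ)
      (by linarith)
    refine h2.trans ?_
    have h3 := Hh_le (R0 := -y₀ + η) (α := α) (β := ϑ) (μ := μ) (B := K) (r1 := r1) (ρ := ρ')
      hμ.le hr1 hKr (le_trans (mul_le_mul_of_nonneg_right (by linarith) hρ0) hρ1) hρ2 hγ.le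
    refine mul_le_mul_of_nonneg_left (Real.exp_le_exp.2 ?_) (by positivity)
    gcongr
  intro γ hγ
  have hsj : |s j - μ| ≤ |s j| + μ := by
    have := abs_sub (s j) μ
    rwa [abs_of_pos hμ] at this
  have hsj' : |s j + μ| ≤ |s j| + μ := by
    have := abs_add_le (s j) μ
    rwa [abs_of_pos hμ] at this
  have hcase : ∀ i < P, i ≠ j → s i ≤ s j - 2 * μ ∨ s j + 2 * μ ≤ s i := by
    intro i hi hij
    have := hs i hi hij
    rcases le_abs.1 this with h | h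
    · right
      linarith
    · left
      linarith
  have k1 := key (s j - μ) hsj (by linarith) (by linarith) (by
    intro i hi
    by_cases hij : i = j
    · right
      rw [hij]
      linarith
    · rcases hcase i hi hij with h | h
      · left
        linarith
      · right
        linarith) γ hγ
  have k2 := key (s j + μ) hsj' (by linarith) (by linarith) (by
    intro i hi
    by_cases hij : i = j
    · left
      rw [hij]
      linarith
    · rcases hcase i hi hij with h | h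
      · left
        linarith
      · right
        linarith) γ hγ
  have hins : (Finset.range P).filter (fun i => s i < s j + μ) =
      insert j ((Finset.range P).filter (fun i => s i < s j - μ)) := by
    ext i
    simp only [Finset.mem_filter, Finset.mem_range, Finset.mem_insert]
    constructor
    · rintro ⟨h2, h3⟩
      by_cases hij : i = j
      · exact Or.inl hij
      · rcases hcase i h2 hij with h | h
        · exact Or.inr ⟨h2, by linarith⟩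
        · exfalso
          linarith
    · rintro (h2 | ⟨h2, h3⟩)
      · rw [h2]
        exact ⟨hj, by linarith⟩
      · exact ⟨h2, by linarith⟩
  have hnot : j ∉ (Finset.range P).filter (fun i => s i < s j - μ) := by
    rw [Finset.mem_filter]
    rintro ⟨_, h2⟩
    linarith
  rw [hins, Finset.sum_insert hnot] at k2
  have e1 : J j γ = (a 0 γ + (J j γ + ∑ i ∈ (Finset.range P).filter (fun i => s i < s j - μ),
      J i γ)) - (a 0 γ + ∑ i ∈ (Finset.range P).filter (fun i => s i < s j - μ), J i γ) := by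
    ring
  rw [e1]
  refine (norm_sub_le _ _).trans ((add_le_add k2 k1).trans (le_of_eq ?_))
  ring

private theorem Fin_ev {c d : ℝ} (hd : 0 < d) : ∀ᶠ x in 𝓝[>] (0 : ℝ), c * x ≤ d := by
  have h1 : Tendsto (fun x : ℝ => c * x) (𝓝[>] (0 : ℝ)) (𝓝 (c * 0)) :=
    (continuous_const.mul continuous_id).continuousWithinAt
  rw [mul_zero] at h1
  exact h1.eventually_le_const hd

/-- The finite part of the argument for one `n`: sequences of holomorphic functions on `ball g₀ ρ`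
with `a (i + 1) = u i a i + J i + E i`. If the rates of the `J i` have the slopes `s i`, `a 0` and
`a P` the slopes `t0`, `tP`, the errors `E i` are smaller by `δ`, and the slope of `J j` is
isolated, then `J j` is exponentially smaller than `exp (- 2 π N y₀)` near `g₀`.
Proof. `π i := ∏_{l < i} u l`, `1 / 2 ^ P ≤ |π i| ≤ 2 ^ P`, `a~ i := a i / π i`, `J~ i := J i / π (i
+ 1)`, `E~ i := E i / π (i + 1)`: `a~ (i + 1) = a~ i + J~ i + E~ i`. For real `ϑ` let `G_ϑ := a~ 0 +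
∑_{s i < ϑ} J~ i`, so also `G_ϑ = a~ P - ∑_{s i > ϑ} J~ i - ∑ E~ i` if no `s i` is `ϑ`.
Let `μ > 0` be such that all `s i`, `i ≠ j`, and `t0 + C`, `tP - C` have distance `≥ 2 μ` from
`σ := s j` in the right direction (`t0 + C ≤ σ - 2 μ`, `σ + 2 μ ≤ tP - C`). Put `ϑ₋ := σ - μ`,
`ϑ₊ := σ + μ`: no `s i` in `(ϑ - μ, ϑ + μ)` for both, `J~ j = G_ϑ₊ - G_ϑ₋`.
On `ball g₀ ρ'`: with `z = x + i y`, every term of the first form for `y ≥ 0`, resp. of the second
form for `y ≤ 0`, is at most `2 ^ P κ exp (- 2 π N (y₀ - α x - ϑ y + μ |y| - K |z| ^ 2 - η))`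
(the error terms if `(|α| + |ϑ| + μ) ρ' ≤ δ / 2`). So `‖G_ϑ γ‖ ≤ (2 P + 2) 2 ^ P κ exp (2 π N RT
(- y₀ + η) α ϑ μ K g₀ γ)`. By `mode_max` on the circle `|z| = r1` and `Hh_le`: `‖G_ϑ γ‖ ≤ (2 P + 2)
2 ^ P κ exp (2 π N (- y₀ + η - μ r1 / 4))` for `|z| ≤ ρ''`. Choose `η := μ r1 / 16` etc.
The constants `c, ρ', η` depend only on `y₀ α δ K C s t0 tP P ρ`, not on `N`, `κ`. -/
theorem fin_part {P j : ℕ} (hj : j < P) {y₀ α δ K C ρ t0 tP : ℝ} {s : ℕ → ℝ} {g₀ : ℂ}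
    (hδ : 0 < δ) (hρ : 0 < ρ) (hK : 0 ≤ K) (hC : 0 ≤ C) (h0 : t0 + C < s j) (h1 : s j < tP - C)
    (hs : ∀ i < P, i ≠ j → s i ≠ s j) :
    ∃ η c ρ' : ℝ, 0 < η ∧ 0 < c ∧ 0 < ρ' ∧ ρ' ≤ ρ ∧ ∀ N κ : ℝ, 1 ≤ N → 0 ≤ κ →
      ∀ a u J E : ℕ → ℂ → ℂ,
      (∀ i ≤ P, DifferentiableOn ℂ (a i) (ball g₀ ρ)) →
      (∀ i < P, DifferentiableOn ℂ (u i) (ball g₀ ρ) ∧ DifferentiableOn ℂ (J i) (ball g₀ ρ) ∧
        DifferentiableOn ℂ (E i) (ball g₀ ρ)) →
      (∀ i < P, ∀ γ ∈ ball g₀ ρ, a (i + 1) γ = u i γ * a i γ + J i γ + E i γ) →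
      (∀ i < P, ∀ γ ∈ ball g₀ ρ, ‖u i γ - 1‖ ≤ 1 / 2) →
      (∀ i < P, ∀ γ ∈ ball g₀ ρ, ‖J i γ‖ ≤
        κ * Real.exp (-(2 * Real.pi * N * (low y₀ α (s i) 0 K g₀ γ - η)))) →
      (∀ i < P, ∀ γ ∈ ball g₀ ρ, ‖E i γ‖ ≤ κ * Real.exp (-(2 * Real.pi * N * (y₀ + δ)))) →
      (∀ γ ∈ ball g₀ ρ, ‖a 0 γ‖ ≤
        κ * Real.exp (-(2 * Real.pi * N * (low y₀ α t0 C K g₀ γ - η)))) →
      (∀ γ ∈ ball g₀ ρ, ‖a P γ‖ ≤
        κ * Real.exp (-(2 * Real.pi * N * (low y₀ α tP C K g₀ γ - η)))) →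
      ∀ γ ∈ ball g₀ ρ', ‖J j γ‖ ≤
        8 ^ P * (4 * P + 4) * κ * Real.exp (-(2 * Real.pi * N * (y₀ + c))) := by
  obtain ⟨μ, hμ, hμs, hμ0, hμ1⟩ : ∃ μ : ℝ, 0 < μ ∧ (∀ i < P, i ≠ j → 2 * μ ≤ |s i - s j|) ∧
      2 * μ ≤ s j - (t0 + C) ∧ 2 * μ ≤ tP - C - s j := by
    have h2 : ∀ᶠ x in 𝓝[>] (0 : ℝ), ∀ i ∈ Finset.range P, i ≠ j → 2 * x ≤ |s i - s j| := by
      rw [Filter.eventually_all_finset]
      intro i hi
      by_cases hij : i = j
      · exact Filter.Eventually.of_forall fun x hx => absurd hij hx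
      · have h3 : 0 < |s i - s j| :=
          abs_pos.2 (sub_ne_zero.2 (hs i (Finset.mem_range.1 hi) hij))
        filter_upwards [Fin_ev (c := 2) h3] with x hx _
        exact hx
    obtain ⟨x, hx1, hx2, hx3, hx4⟩ := (h2.and ((Fin_ev (c := 2) (sub_pos.2 h0)).and
      ((Fin_ev (c := 2) (sub_pos.2 h1)).and self_mem_nhdsWithin))).exists
    exact ⟨x, hx4, fun i hi => hx1 i (Finset.mem_range.2 hi), hx2, hx3⟩
  obtain ⟨r1, hr1, hr1ρ, hKr, hδr⟩ : ∃ r1 : ℝ, 0 < r1 ∧ r1 ≤ ρ / 2 ∧ K * r1 ≤ μ / 8 ∧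
      (|α| + |s j| + 2 * μ) * r1 ≤ δ := by
    obtain ⟨x, hx1, hx2, hx3, hx4⟩ := ((Fin_ev (c := 1) (half_pos hρ)).and
      ((Fin_ev (c := K) (show (0:ℝ) < μ / 8 by positivity)).and
      ((Fin_ev (c := |α| + |s j| + 2 * μ) hδ).and self_mem_nhdsWithin))).exists
    rw [one_mul] at hx1
    exact ⟨x, hx4, hx1, hx2, hx3⟩
  obtain ⟨ρ', hρ', hρr, hρμ⟩ : ∃ ρ' : ℝ, 0 < ρ' ∧ ρ' ≤ r1 / 4 ∧
      (|α| + |s j| + μ) * ρ' ≤ μ * r1 / 32 := by
    obtain ⟨x, hx1, hx2, hx3⟩ := ((Fin_ev (c := 1) (show (0:ℝ) < r1 / 4 by positivity)).and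
      ((Fin_ev (c := |α| + |s j| + μ) (show (0:ℝ) < μ * r1 / 32 by positivity)).and
      self_mem_nhdsWithin)).exists
    rw [one_mul] at hx1
    exact ⟨x, hx3, hx1, hx2⟩
  refine ⟨μ * r1 / 16, μ * r1 / 8, ρ', by positivity, by positivity, hρ', by linarith, ?_⟩
  intro N κ hN hκ a u J E had huJE hrec hu hJ hE ha0 haP γ hγ
  obtain ⟨π', hπ'⟩ : ∃ π' : ℕ → ℂ → ℂ, π' = fun i γ => ∏ l ∈ Finset.range i, u l γ := ⟨_, rfl⟩
  have hul : ∀ i < P, ∀ γ ∈ ball g₀ ρ, 1 / 2 ≤ ‖u i γ‖ ∧ ‖u i γ‖ ≤ 2 := by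
    intro i hi γ hγ
    have h2 := hu i hi γ hγ
    have h3 := norm_sub_norm_le (1 : ℂ) (u i γ)
    rw [norm_sub_rev, norm_one] at h3
    have h4 := norm_sub_norm_le (u i γ) (1 : ℂ)
    rw [norm_one] at h4
    constructor <;> linarith
  have hπl : ∀ i ≤ P, ∀ γ ∈ ball g₀ ρ, (1 / 2 : ℝ) ^ i ≤ ‖π' i γ‖ ∧ ‖π' i γ‖ ≤ 2 ^ i := by
    intro i
    induction i with
    | zero =>
      intro _ γ _
      simp [hπ']
    | succ i ih =>
      intro hi γ hγ
      have h2 := ih (by omega) γ hγ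
      have h3 := hul i (by omega) γ hγ
      have e1 : π' (i + 1) γ = π' i γ * u i γ := by
        simp only [hπ']
        rw [Finset.prod_range_succ]
      rw [e1, norm_mul, pow_succ, pow_succ]
      have h4 : (0:ℝ) < (1 / 2 : ℝ) ^ i := by positivity
      constructor
      · exact mul_le_mul h2.1 h3.1 (by norm_num) (h4.le.trans h2.1)
      · exact mul_le_mul h2.2 h3.2 (norm_nonneg _) (by positivity)
  have hπ0 : ∀ i ≤ P, ∀ γ ∈ ball g₀ ρ, π' i γ ≠ 0 := by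
    intro i hi γ hγ h2
    have h3 := (hπl i hi γ hγ).1
    rw [h2, norm_zero] at h3
    have h4 : (0:ℝ) < (1 / 2 : ℝ) ^ i := by positivity
    linarith
  have hπd : ∀ i ≤ P, DifferentiableOn ℂ (π' i) (ball g₀ ρ) := by
    intro i hi
    rw [hπ']
    refine DifferentiableOn.fun_finsetProd fun l hl => ?_
    rw [Finset.mem_range] at hl
    exact (huJE l (by omega)).1
  have hdiv : ∀ i ≤ P, ∀ γ ∈ ball g₀ ρ, ∀ (x : ℂ) (b : ℝ), ‖x‖ ≤ κ * b →
      ‖x / π' i γ‖ ≤ (2 ^ P * κ) * b := by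
    intro i hi γ hγ x b hx
    have h2 := (hπl i hi γ hγ).1
    have h3 : (1 / 2 : ℝ) ^ P ≤ ‖π' i γ‖ :=
      (pow_le_pow_of_le_one (by norm_num) (by norm_num) hi).trans h2
    have h4 : (0:ℝ) < (1 / 2 : ℝ) ^ P := by positivity
    rw [norm_div, div_le_iff₀ (h4.trans_le h3)]
    have h5 : (2:ℝ) ^ P * (1 / 2) ^ P = 1 := by
      rw [← mul_pow]
      norm_num
    have h6 : 0 ≤ κ * b := (norm_nonneg _).trans hx
    calc ‖x‖ ≤ κ * b := hx
      _ = (2 ^ P * κ) * b * (1 / 2) ^ P := by linear_combination (-(κ * b)) * h5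
      _ ≤ (2 ^ P * κ) * b * ‖π' i γ‖ := by
          have h7 : (2 ^ P * κ) * b = 2 ^ P * (κ * b) := by ring
          rw [h7]
          gcongr
  have hball : γ ∈ ball g₀ ρ := ball_subset_ball (by linarith) hγ
  have h2 := Fin_core hj (y₀ := y₀) (α := α) (δ := δ) (K := K) (C := C) (r1 := r1) (ρ := ρ)
    (ρ' := ρ') (t0 := t0) (tP := tP) (μ := μ) (η := μ * r1 / 16) (N := N) (κ := 2 ^ P * κ)
    (s := s) (g₀ := g₀) hμ (by positivity) (by linarith) (by positivity) hK hr1 (by linarith)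
    (by linarith) (by linarith) hμs hδr hKr hρ'.le hρμ hρr
    (a := fun i γ => a i γ / π' i γ) (J := fun i γ => J i γ / π' (i + 1) γ)
    (E := fun i γ => E i γ / π' (i + 1) γ)
    ((had 0 (by omega)).fun_div (hπd 0 (by omega)) (hπ0 0 (by omega)))
    (fun i hi => (huJE i hi).2.1.fun_div (hπd (i + 1) hi) (hπ0 (i + 1) hi))
    (by
      intro i hi w hw
      have e1 : π' (i + 1) w = π' i w * u i w := by
        simp only [hπ']
        rw [Finset.prod_range_succ]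
      have e2 := hπ0 (i + 1) hi w hw
      have e3 := hπ0 i (by omega) w hw
      show a (i + 1) w / π' (i + 1) w = a i w / π' i w + J i w / π' (i + 1) w +
        E i w / π' (i + 1) w
      rw [hrec i hi w hw]
      rw [e1] at e2 ⊢
      have e4 : u i w ≠ 0 := fun h => e2 (by rw [h, mul_zero])
      field_simp)
    (fun i hi w hw => hdiv (i + 1) hi w hw _ _ (hJ i hi w hw))
    (fun i hi w hw => hdiv (i + 1) hi w hw _ _ (hE i hi w hw))
    (fun w hw => hdiv 0 (by omega) w hw _ _ (ha0 w hw))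
    (fun w hw => hdiv P le_rfl w hw _ _ (haP w hw)) γ hγ
  have h3 := (hπl (j + 1) hj γ hball).2
  have h4 : ‖π' (j + 1) γ‖ ≤ 2 ^ P := h3.trans (pow_le_pow_right₀ (by norm_num) hj)
  have e1 : J j γ = J j γ / π' (j + 1) γ * π' (j + 1) γ :=
    (div_mul_cancel₀ _ (hπ0 (j + 1) hj γ hball)).symm
  rw [e1, norm_mul]
  have h5 : Real.exp (2 * Real.pi * N * (-y₀ + μ * r1 / 16 - μ * r1 / 4)) ≤
      Real.exp (-(2 * Real.pi * N * (y₀ + μ * r1 / 8))) := by
    refine Real.exp_le_exp.2 ?_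
    have h6 : 0 ≤ 2 * Real.pi * N := by positivity
    have h7 : 0 < μ * r1 := by positivity
    have h8 : -y₀ + μ * r1 / 16 - μ * r1 / 4 ≤ -(y₀ + μ * r1 / 8) := by linarith
    have h9 := mul_le_mul_of_nonneg_left h8 h6
    linarith
  have h48 : (4:ℝ) ^ P ≤ 8 ^ P := by gcongr; norm_num
  calc ‖J j γ / π' (j + 1) γ‖ * ‖π' (j + 1) γ‖
      ≤ ((4 * P + 4) * (2 ^ P * κ) *
          Real.exp (-(2 * Real.pi * N * (y₀ + μ * r1 / 8)))) * 2 ^ P := by
        refine mul_le_mul (h2.trans ?_) h4 (norm_nonneg _) (by positivity)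
        gcongr
    _ = (2 ^ P * 2 ^ P) * ((4 * P + 4) * κ *
          Real.exp (-(2 * Real.pi * N * (y₀ + μ * r1 / 8)))) := by ring
    _ = 4 ^ P * ((4 * P + 4) * κ *
          Real.exp (-(2 * Real.pi * N * (y₀ + μ * r1 / 8)))) := by
        rw [← mul_pow]
        norm_num
    _ ≤ 8 ^ P * ((4 * P + 4) * κ *
          Real.exp (-(2 * Real.pi * N * (y₀ + μ * r1 / 8)))) := by gcongr
    _ = 8 ^ P * (4 * P + 4) * κ * Real.exp (-(2 * Real.pi * N * (y₀ + μ * r1 / 8))) := by ring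

end Pool.Agent.MP_ae5b4e_an_A3
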