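import Pool.Agent.Lib.MP_ae5b4e_an_A3.Step
import Pool.Agent.Lib.MP_ae5b4e_an_A3.Fin

/-! # A3: the first modes of the kicks of a stretch

Main theorem `fbi`: a branch point in the middle of a stretch whose slope is different from the
slopes of all the other branch points of the stretch has a deficient first mode. -/

set_option autoImplicit false

noncomputable section

namespace Pool.Agent.MP_ae5b4e_an_A3

open Complex Set Filter Topology Metric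
open Pool.Agent.MP_ae5b4e_an_A1 (tr Str BC)
open Pool.Agent.MP_ae5b4e_an_MERO (fo St fo_indep norm_fo_le hasSum_fo)
open Pool.Agent.MP_ae5b4e_an_A4 (am Per SN RT Hh mode_max Hh_le)

private theorem fb_mul (a x n : ℝ) (h : |x| ≤ n) : a * x ≤ |a| * n ∧ -(a * x) ≤ |a| * n := by
  have h1 : |a * x| ≤ |a| * n := by
    rw [abs_mul]
    exact mul_le_mul_of_nonneg_left h (abs_nonneg _)
  exact ⟨(le_abs_self _).trans h1, (neg_le_abs _).trans h1⟩

private theorem fb_low_ge {y₀ α s C K L : ℝ} {g₀ γ : ℂ} (hC : 0 ≤ C) (hK : 0 ≤ K)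
    (hz : ‖γ - g₀‖ ≤ 1) (hL : |α| + |s| + C + 3 * K ≤ L) :
    y₀ - L * ‖γ - g₀‖ ≤ low y₀ α s C K g₀ γ := by
  unfold low
  set z := γ - g₀ with hzd
  have hn : 0 ≤ ‖z‖ := norm_nonneg z
  have h1 := (fb_mul α z.re ‖z‖ (abs_re_le_norm z)).1
  have h2 := (fb_mul s z.im ‖z‖ (abs_im_le_norm z)).1
  have h3 : C * |z.im| ≤ C * ‖z‖ := mul_le_mul_of_nonneg_left (abs_im_le_norm z) hC
  have h4 : K * ‖z‖ ^ 2 ≤ K * ‖z‖ := by
    refine mul_le_mul_of_nonneg_left ?_ hK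
    nlinarith
  have h5 : (|α| + |s| + C + 3 * K) * ‖z‖ ≤ L * ‖z‖ := mul_le_mul_of_nonneg_right hL hn
  have h6 : 0 ≤ K * ‖z‖ := mul_nonneg hK hn
  linarith

private theorem fb_low_le {y₀ α s K L : ℝ} {g₀ γ : ℂ} (hK : 0 ≤ K)
    (hz : ‖γ - g₀‖ ≤ 1) (hL : |α| + |s| + 3 * K ≤ L) :
    low y₀ α s 0 0 g₀ γ + K * ‖γ - g₀‖ ^ 2 ≤ y₀ + L * ‖γ - g₀‖ := by
  unfold low
  set z := γ - g₀ with hzd
  have hn : 0 ≤ ‖z‖ := norm_nonneg z
  have h1 := (fb_mul α z.re ‖z‖ (abs_re_le_norm z)).2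
  have h2 := (fb_mul s z.im ‖z‖ (abs_im_le_norm z)).2
  have h4 : K * ‖z‖ ^ 2 ≤ K * ‖z‖ := by
    refine mul_le_mul_of_nonneg_left ?_ hK
    nlinarith
  have h5 : (|α| + |s| + 3 * K) * ‖z‖ ≤ L * ‖z‖ := mul_le_mul_of_nonneg_right hL hn
  have h6 : 0 ≤ K * ‖z‖ := mul_nonneg hK hn
  linarith

private theorem fb_low_lip {y₀ α s C K L : ℝ} {g₀ γ f : ℂ} (hC : 0 ≤ C) (hK : 0 ≤ K)
    (hz : ‖γ - g₀‖ ≤ 1) (hf : ‖f‖ ≤ 1) (hL : |α| + |s| + C + 3 * K ≤ L) :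
    low y₀ α s C K g₀ γ - L * ‖f‖ ≤ low y₀ α s C K g₀ (γ + f) := by
  unfold low
  have e0 : γ + f - g₀ = (γ - g₀) + f := by ring
  rw [e0]
  set z := γ - g₀ with hzd
  have hn : 0 ≤ ‖z‖ := norm_nonneg z
  have hfn : 0 ≤ ‖f‖ := norm_nonneg f
  have h1 := (fb_mul α f.re ‖f‖ (abs_re_le_norm f)).1
  have h2 := (fb_mul s f.im ‖f‖ (abs_im_le_norm f)).1
  have h3 : C * |z.im + f.im| ≤ C * (|z.im| + ‖f‖) := by
    refine mul_le_mul_of_nonneg_left ?_ hC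
    exact (abs_add_le _ _).trans (add_le_add le_rfl (abs_im_le_norm f))
  have h4 : K * ‖z + f‖ ^ 2 ≤ K * (‖z‖ ^ 2 + 3 * ‖f‖) := by
    refine mul_le_mul_of_nonneg_left ?_ hK
    have h5 : ‖z + f‖ ≤ ‖z‖ + ‖f‖ := norm_add_le _ _
    have h6 : ‖z + f‖ ^ 2 ≤ (‖z‖ + ‖f‖) ^ 2 := pow_le_pow_left₀ (norm_nonneg _) h5 2
    have h7 : ‖z‖ * ‖f‖ ≤ 1 * ‖f‖ := mul_le_mul_of_nonneg_right hz hfn
    have h8 : ‖f‖ * ‖f‖ ≤ 1 * ‖f‖ := mul_le_mul_of_nonneg_right hf hfn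
    nlinarith
  have h5 : (|α| + |s| + C + 3 * K) * ‖f‖ ≤ L * ‖f‖ := mul_le_mul_of_nonneg_right hL hfn
  rw [add_re, add_im]
  linarith

private theorem fb_line {N y₁ κ h R : ℝ} {T : ℂ → ℝ} {g₀ γ : ℂ} {F : ℂ × ℂ → ℂ}
    (hF : Per N y₁ κ T g₀ R F) (hγ : γ ∈ ball g₀ R) (hy : h ∈ Ioo (N * y₁) (N * T γ)) :
    Continuous fun s : ℝ => F ((s : ℂ) + h * I, γ) := by
  rw [← continuousOn_univ]
  refine (hF.slice hγ).1.continuousOn.comp (f := fun s : ℝ => ((s : ℂ) + h * I)) (by fun_prop)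
    fun s _ => ?_
  change N * y₁ < ((s : ℂ) + h * I).im ∧ ((s : ℂ) + h * I).im < N * T γ
  simpa using hy

private theorem fb_rel {N y₁ κ κ' h R : ℝ} {T T' : ℂ → ℝ} {g₀ γ : ℂ} {F F' S : ℂ × ℂ → ℂ}
    (hF : Per N y₁ κ T g₀ R F) (hF' : Per N y₁ κ' T' g₀ R F') (hγ : γ ∈ ball g₀ R)
    (hy : h ∈ Ioo (N * y₁) (N * T γ)) (hy' : h ∈ Ioo (N * y₁) (N * T' γ))
    (hrel : ∀ p : ℂ × ℂ, p.1.im = h → p.2 ∈ ball g₀ R → F' p = F p + S p) (m : ℤ) :
    am F' h m γ = am F h m γ + am S h m γ := by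
  have e1 : am S h m γ = ∫ s in (0:ℝ)..1,
      (F' ((s : ℂ) + h * I, γ) * exp (-(2 * Real.pi * I * m * (s + h * I))) -
        F ((s : ℂ) + h * I, γ) * exp (-(2 * Real.pi * I * m * (s + h * I)))) := by
    unfold am fo
    refine intervalIntegral.integral_congr fun s _ => ?_
    have h1 := hrel ((s : ℂ) + h * I, γ) (by simp) hγ
    simp only
    rw [h1]
    ring
  have hexp : Continuous fun s : ℝ => exp (-(2 * Real.pi * I * m * ((s : ℂ) + h * I))) := by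
    fun_prop
  have i1 : IntervalIntegrable (fun s : ℝ => F' ((s : ℂ) + h * I, γ) *
      exp (-(2 * Real.pi * I * m * (s + h * I)))) MeasureTheory.volume 0 1 :=
    ((fb_line hF' hγ hy').mul hexp).intervalIntegrable _ _
  have i2 : IntervalIntegrable (fun s : ℝ => F ((s : ℂ) + h * I, γ) *
      exp (-(2 * Real.pi * I * m * (s + h * I)))) MeasureTheory.volume 0 1 :=
    ((fb_line hF hγ hy).mul hexp).intervalIntegrable _ _
  rw [e1, intervalIntegral.integral_sub i1 i2]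
  unfold am fo
  ring

private theorem fb_der {f : ℂ → ℂ} {g₀ γ : ℂ} {R κ q : ℝ} (hf : DifferentiableOn ℂ f (ball g₀ R))
    (hb : ∀ γ ∈ ball g₀ R, ‖f γ‖ ≤ κ) (hq : 0 < q) (hγ : ‖γ - g₀‖ + q < R) :
    ‖deriv f γ‖ ≤ κ / q := by
  have hs : closedBall γ q ⊆ ball g₀ R := by
    intro z hz
    rw [mem_closedBall, dist_eq_norm] at hz
    rw [mem_ball, dist_eq_norm]
    have e1 : z - g₀ = (z - γ) + (γ - g₀) := by ring
    rw [e1]
    have := norm_add_le (z - γ) (γ - g₀)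
    linarith
  exact Complex.norm_deriv_le_of_forall_mem_sphere_norm_le hq (hf.diffContOnCl_ball hs)
    fun z hz => hb z (hs (sphere_subset_closedBall hz))

private theorem fb_inv {f : ℂ → ℂ} {g₀ γ' : ℂ} {ρ ρ' κ : ℝ} (hρ : 0 < ρ) (hρ' : 0 < ρ')
    (hρρ : ρ' ≤ ρ) (hf : DifferentiableOn ℂ f (ball g₀ (2 * ρ)))
    (hb : ∀ γ ∈ ball g₀ (2 * ρ), ‖f γ‖ ≤ κ) (hκ : κ ≤ ρ' / 16) (hγ' : γ' ∈ ball g₀ (ρ' / 2)) :
    ∃ γ ∈ ball g₀ ρ', γ + f γ = γ' := by
  have hκ0 : 0 ≤ κ := (norm_nonneg _).trans (hb g₀ (mem_ball_self (by linarith)))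
  have hsub : closedBall g₀ (3 / 4 * ρ') ⊆ ball g₀ (2 * ρ) :=
    closedBall_subset_ball (by linarith)
  rw [mem_ball, dist_eq_norm] at hγ'
  have hmt : MapsTo (fun γ => γ' - f γ) (closedBall g₀ (3 / 4 * ρ'))
      (closedBall g₀ (3 / 4 * ρ')) := by
    intro γ hγ
    have h1 := hb γ (hsub hγ)
    change γ' - f γ ∈ closedBall g₀ (3 / 4 * ρ')
    rw [mem_closedBall, dist_eq_norm]
    have e1 : γ' - f γ - g₀ = (γ' - g₀) - f γ := by ring
    rw [e1]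
    have := norm_sub_le (γ' - g₀) (f γ)
    linarith
  have hlip : ∀ x ∈ closedBall g₀ (3 / 4 * ρ'), ∀ y ∈ closedBall g₀ (3 / 4 * ρ'),
      ‖f y - f x‖ ≤ 1 / 2 * ‖y - x‖ := by
    intro x hx y hy
    refine (convex_closedBall g₀ (3 / 4 * ρ')).norm_image_sub_le_of_norm_deriv_le
      (𝕜 := ℂ) (fun z hz => (hf z (hsub hz)).differentiableAt (isOpen_ball.mem_nhds (hsub hz)))
      (fun z hz => ?_) hx hy
    have h1 := fb_der hf hb (q := ρ / 2) (by linarith) (γ := z) (by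
      rw [mem_closedBall, dist_eq_norm] at hz
      linarith)
    refine h1.trans ?_
    rw [div_le_iff₀ (by linarith)]
    linarith
  have hcon : ContractingWith (1 / 2 : NNReal)
      (hmt.restrict (fun γ => γ' - f γ) (closedBall g₀ (3 / 4 * ρ'))
        (closedBall g₀ (3 / 4 * ρ'))) := by
    refine ⟨by rw [← NNReal.coe_lt_coe]; norm_num, LipschitzWith.of_dist_le_mul fun x y => ?_⟩
    rw [Subtype.dist_eq, Subtype.dist_eq, dist_eq_norm, dist_eq_norm]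
    change ‖(γ' - f x.1) - (γ' - f y.1)‖ ≤ _
    have e1 : (γ' - f x.1) - (γ' - f y.1) = f y.1 - f x.1 := by ring
    rw [e1]
    have h2 := hlip x.1 x.2 y.1 y.2
    rw [norm_sub_rev y.1 x.1] at h2
    simpa using h2
  obtain ⟨γ, hγ, hfix, -⟩ := hcon.exists_fixedPoint' (isClosed_closedBall.isComplete) hmt
    (mem_closedBall_self (by linarith)) (edist_ne_top g₀ _)
  refine ⟨γ, closedBall_subset_ball (by linarith) hγ, ?_⟩
  have h1 : γ' - f γ = γ := hfix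
  nth_rewrite 1 [← h1]
  ring

/-- the conclusion of `fin_part` for one `N`, with `κ = 1` -/
private def FP (P j : ℕ) (y₀ α δ K C ρ t0 tP : ℝ) (s : ℕ → ℝ) (g₀ : ℂ) (η c ρ' N : ℝ) : Prop :=
  ∀ a u J E : ℕ → ℂ → ℂ,
      (∀ i ≤ P, DifferentiableOn ℂ (a i) (ball g₀ ρ)) →
      (∀ i < P, DifferentiableOn ℂ (u i) (ball g₀ ρ) ∧ DifferentiableOn ℂ (J i) (ball g₀ ρ) ∧
        DifferentiableOn ℂ (E i) (ball g₀ ρ)) →
      (∀ i < P, ∀ γ ∈ ball g₀ ρ, a (i + 1) γ = u i γ * a i γ + J i γ + E i γ) →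
      (∀ i < P, ∀ γ ∈ ball g₀ ρ, ‖u i γ - 1‖ ≤ 1 / 2) →
      (∀ i < P, ∀ γ ∈ ball g₀ ρ, ‖J i γ‖ ≤
        1 * Real.exp (-(2 * Real.pi * N * (low y₀ α (s i) 0 K g₀ γ - η)))) →
      (∀ i < P, ∀ γ ∈ ball g₀ ρ, ‖E i γ‖ ≤ 1 * Real.exp (-(2 * Real.pi * N * (y₀ + δ)))) →
      (∀ γ ∈ ball g₀ ρ, ‖a 0 γ‖ ≤
        1 * Real.exp (-(2 * Real.pi * N * (low y₀ α t0 C K g₀ γ - η)))) →
      (∀ γ ∈ ball g₀ ρ, ‖a P γ‖ ≤
        1 * Real.exp (-(2 * Real.pi * N * (low y₀ α tP C K g₀ γ - η)))) →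
      ∀ γ ∈ ball g₀ ρ', ‖J j γ‖ ≤
        8 ^ P * (4 * P + 4) * 1 * Real.exp (-(2 * Real.pi * N * (y₀ + c)))

/-- the bound for one `n` -/
private theorem fb_n {P j : ℕ} (hj : j < P) {N y₁ y₀ κ α K C δ η η' c ρ ρ' L : ℝ}
    {s t : ℕ → ℝ} {g₀ : ℂ} {F G Bf : ℕ → ℂ × ℂ → ℂ}
    (hfin : FP P j y₀ α (δ / 4) K C ρ (t 0) (t P) s g₀ η c ρ' N)
    (hN : 1 ≤ N) (hδ : 0 < δ) (hNδ : 2 ≤ N * δ) (hρ : 0 < ρ) (hρ1 : 2 * ρ ≤ 1) (hρ' : 0 < ρ')
    (hρρ : ρ' ≤ ρ) (hy : y₁ + 2 * δ ≤ y₀ - δ) (hK : 0 ≤ K) (hκ0 : 0 ≤ κ)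
    (hκδ : κ ≤ δ / 64) (hκρ : κ ≤ ρ / 64) (hκρ' : κ ≤ ρ' / 16) (hκ1 : 2000 * κ ≤ 1)
    (hκη : (L + 1) * κ ≤ η / 2) (hη' : η' ≤ η / 2)
    (hLs : ∀ i < P, |α| + |s i| + 0 + 3 * K ≤ L)
    (hF : ∀ i ≤ P, Per N y₁ κ (fun γ => low y₀ α (t i) C K g₀ γ - η') g₀ (2 * ρ) (F i))
    (hG : ∀ i ≤ P, Per N y₁ κ (fun γ => low y₀ α (t i) C K g₀ γ - η') g₀ (2 * ρ) (G i))
    (hB : ∀ i < P, Per N y₁ κ (fun γ => low y₀ α (s i) 0 K g₀ γ - η') g₀ (2 * ρ) (Bf i))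
    (hTF : ∀ i ≤ P, ∀ γ ∈ ball g₀ (2 * ρ), y₀ - δ + 3 / 4 * δ < low y₀ α (t i) C K g₀ γ - η')
    (hTB : ∀ i < P, ∀ γ ∈ ball g₀ (2 * ρ), y₀ - δ + 3 / 4 * δ < low y₀ α (s i) 0 K g₀ γ - η')
    (hrel : ∀ i < P, ∀ p : ℂ × ℂ, p.1.im = N * (y₀ - δ) → p.2 ∈ ball g₀ (2 * ρ) →
      F (i + 1) p = F i p + Bf i (p.1 + N * G i p, p.2 + F i p)) :
    ∀ γ' ∈ ball g₀ (ρ' / 2), ‖am (Bf j) (N * (y₀ - δ)) (-1) γ'‖ ≤
      Real.exp (2 * Real.pi * N * κ) *
        (8 ^ P * (4 * P + 4) * 1 * Real.exp (-(2 * Real.pi * N * (y₀ + c)))) := by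
  have hN0 : 0 < N := by linarith
  have hπ : 0 < 2 * Real.pi * N := by positivity
  obtain ⟨h, hh⟩ : ∃ h, h = N * (y₀ - δ) := ⟨_, rfl⟩
  rw [← hh] at hrel ⊢
  have hlo : N * y₁ < h := by
    rw [hh]
    exact mul_lt_mul_of_pos_left (by linarith) hN0
  have hIF : ∀ i ≤ P, ∀ γ ∈ ball g₀ (2 * ρ),
      h ∈ Ioo (N * y₁) (N * (low y₀ α (t i) C K g₀ γ - η')) := by
    intro i hi γ hγ
    refine ⟨hlo, ?_⟩
    rw [hh]
    exact mul_lt_mul_of_pos_left (by linarith [hTF i hi γ hγ]) hN0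
  have hIB : ∀ i < P, ∀ γ ∈ ball g₀ (2 * ρ),
      h ∈ Ioo (N * y₁) (N * (low y₀ α (s i) 0 K g₀ γ - η')) := by
    intro i hi γ hγ
    refine ⟨hlo, ?_⟩
    rw [hh]
    exact mul_lt_mul_of_pos_left (by linarith [hTB i hi γ hγ]) hN0
  have hball : ball g₀ ρ ⊆ ball g₀ (2 * ρ) := ball_subset_ball (by linarith)
  have hF0 : ∀ i ≤ P, ∀ γ ∈ ball g₀ (2 * ρ), ‖am (F i) h 0 γ‖ ≤ κ := by
    intro i hi γ hγ
    have h1 := (hF i hi).le hγ (hIF i hi γ hγ) (Ioo_subset_Icc_self (hIF i hi γ hγ)) 0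
    simpa using h1
  have hG0 : ∀ i ≤ P, ∀ γ ∈ ball g₀ (2 * ρ), ‖am (G i) h 0 γ‖ ≤ κ := by
    intro i hi γ hγ
    have h1 := (hG i hi).le hγ (hIF i hi γ hγ) (Ioo_subset_Icc_self (hIF i hi γ hγ)) 0
    simpa using h1
  have hB0 : ∀ i < P, ∀ γ ∈ ball g₀ (2 * ρ), ‖am (Bf i) h 0 γ‖ ≤ κ := by
    intro i hi γ hγ
    have h1 := (hB i hi).le hγ (hIB i hi γ hγ) (Ioo_subset_Icc_self (hIB i hi γ hγ)) 0
    simpa using h1
  -- shifted points
  have hsh : ∀ i ≤ P, ∀ γ ∈ ball g₀ ρ, ‖γ + am (F i) h 0 γ - g₀‖ < ρ + κ := by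
    intro i hi γ hγ
    have h1 := hF0 i hi γ (hball hγ)
    rw [mem_ball, dist_eq_norm] at hγ
    have e1 : γ + am (F i) h 0 γ - g₀ = (γ - g₀) + am (F i) h 0 γ := by ring
    rw [e1]
    have h2 := norm_add_le (γ - g₀) (am (F i) h 0 γ)
    linarith
  have hshm : ∀ i ≤ P, MapsTo (fun γ => γ + am (F i) h 0 γ) (ball g₀ ρ) (ball g₀ (2 * ρ)) := by
    intro i hi γ hγ
    have h1 := hsh i hi γ hγ
    change γ + am (F i) h 0 γ ∈ ball g₀ (2 * ρ)
    rw [mem_ball, dist_eq_norm]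
    linarith
  -- differentiability
  have dF : ∀ m : ℤ, ∀ i ≤ P, DifferentiableOn ℂ (am (F i) h m) (ball g₀ (2 * ρ)) :=
    fun m i hi => (hF i hi).diff le_rfl (hIF i hi) m
  have dG : ∀ m : ℤ, ∀ i ≤ P, DifferentiableOn ℂ (am (G i) h m) (ball g₀ (2 * ρ)) :=
    fun m i hi => (hG i hi).diff le_rfl (hIF i hi) m
  have dB : ∀ m : ℤ, ∀ i < P, DifferentiableOn ℂ (am (Bf i) h m) (ball g₀ (2 * ρ)) :=
    fun m i hi => (hB i hi).diff le_rfl (hIB i hi) m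
  have dsh : ∀ i ≤ P, DifferentiableOn ℂ (fun γ => γ + am (F i) h 0 γ) (ball g₀ ρ) :=
    fun i hi => differentiableOn_id.add ((dF 0 i hi).mono hball)
  let a : ℕ → ℂ → ℂ := fun i => am (F i) h (-1)
  let u : ℕ → ℂ → ℂ := fun i γ => 1 + deriv (am (Bf i) h 0) (γ + am (F i) h 0 γ)
  let J : ℕ → ℂ → ℂ := fun i γ => exp (-(2 * Real.pi * I * (N * am (G i) h 0 γ))) *
    am (Bf i) h (-1) (γ + am (F i) h 0 γ)
  let E : ℕ → ℂ → ℂ := fun i γ => a (i + 1) γ - u i γ * a i γ - J i γ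
  have da : ∀ i ≤ P, DifferentiableOn ℂ (a i) (ball g₀ ρ) := fun i hi => (dF _ i hi).mono hball
  have du : ∀ i < P, DifferentiableOn ℂ (u i) (ball g₀ ρ) := fun i hi =>
    (differentiableOn_const _).add (((dB 0 i hi).deriv isOpen_ball).comp (dsh i hi.le)
      (hshm i hi.le))
  have dJ : ∀ i < P, DifferentiableOn ℂ (J i) (ball g₀ ρ) := fun i hi =>
    ((((dG 0 i hi.le).mono hball).const_mul _).const_mul _).neg.cexp.mul
      ((dB (-1) i hi).comp (dsh i hi.le) (hshm i hi.le))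
  have hκ2 : 4 * κ ≤ ρ := by linarith
  have hexpG : ∀ i ≤ P, ∀ γ ∈ ball g₀ (2 * ρ),
      ‖exp (-(2 * Real.pi * I * (N * am (G i) h 0 γ)))‖ ≤ Real.exp (2 * Real.pi * N * κ) ∧
      ‖exp (2 * Real.pi * I * (N * am (G i) h 0 γ))‖ ≤ Real.exp (2 * Real.pi * N * κ) := by
    intro i hi γ hγ
    have h1 := (abs_im_le_norm (am (G i) h 0 γ)).trans (hG0 i hi γ hγ)
    have h2 := abs_le.1 h1
    have e1 : (2 * Real.pi * I * (N * am (G i) h 0 γ)).re =
        -(2 * Real.pi * N * (am (G i) h 0 γ).im) := by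
      simp
      ring
    constructor
    · rw [Complex.norm_exp, Real.exp_le_exp, neg_re, e1, neg_neg]
      exact mul_le_mul_of_nonneg_left h2.2 hπ.le
    · rw [Complex.norm_exp, Real.exp_le_exp, e1]
      have h3 := mul_le_mul_of_nonneg_left h2.1 hπ.le
      linarith
  have hκe : κ ≤ 1 := by linarith
  have hJb : ∀ i < P, ∀ γ ∈ ball g₀ ρ, ‖J i γ‖ ≤
      1 * Real.exp (-(2 * Real.pi * N * (low y₀ α (s i) 0 K g₀ γ - η))) := by
    intro i hi γ hγ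
    have hγ2 := hball hγ
    have hm : γ + am (F i) h 0 γ ∈ ball g₀ (2 * ρ) := hshm i hi.le hγ
    have h1 := (hexpG i hi.le γ hγ2).1
    have hI := hIB i hi _ hm
    have h2 := (hB i hi).le hm hI (right_mem_Icc.2 (hI.1.trans hI.2).le) (-1)
    have hf := hF0 i hi.le γ hγ2
    have h3 : low y₀ α (s i) 0 K g₀ γ - L * κ ≤ low y₀ α (s i) 0 K g₀ (γ + am (F i) h 0 γ) := by
      have h4 := fb_low_lip (y₀ := y₀) (g₀ := g₀) (γ := γ) (f := am (F i) h 0 γ) le_rfl hK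
        (by rw [mem_ball, dist_eq_norm] at hγ; linarith) (hf.trans hκe) (hLs i hi)
      have hL0 : 0 ≤ L := by
        have := hLs i hi
        have h5 := abs_nonneg α
        have h6 := abs_nonneg (s i)
        linarith
      have h5 := mul_le_mul_of_nonneg_left hf hL0
      linarith
    change ‖exp (-(2 * Real.pi * I * (N * am (G i) h 0 γ))) *
      am (Bf i) h (-1) (γ + am (F i) h 0 γ)‖ ≤ _
    rw [norm_mul]
    calc ‖exp (-(2 * Real.pi * I * (N * am (G i) h 0 γ)))‖ *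
          ‖am (Bf i) h (-1) (γ + am (F i) h 0 γ)‖
        ≤ Real.exp (2 * Real.pi * N * κ) * (κ * Real.exp (2 * Real.pi * ((-1 : ℤ) : ℝ) *
            (N * (low y₀ α (s i) 0 K g₀ (γ + am (F i) h 0 γ) - η')))) :=
          mul_le_mul h1 h2 (norm_nonneg _) (Real.exp_pos _).le
      _ = κ * Real.exp (2 * Real.pi * N * κ + 2 * Real.pi * ((-1 : ℤ) : ℝ) *
            (N * (low y₀ α (s i) 0 K g₀ (γ + am (F i) h 0 γ) - η'))) := by
          rw [Real.exp_add]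
          ring
      _ ≤ 1 * Real.exp (-(2 * Real.pi * N * (low y₀ α (s i) 0 K g₀ γ - η))) := by
          refine mul_le_mul hκe (Real.exp_le_exp.2 ?_) (Real.exp_pos _).le zero_le_one
          have h5 : low y₀ α (s i) 0 K g₀ γ - η ≤
              low y₀ α (s i) 0 K g₀ (γ + am (F i) h 0 γ) - η' - κ := by linarith
          have h6 := mul_le_mul_of_nonneg_left h5 hπ.le
          push_cast
          linarith
  have hab : ∀ i ≤ P, ∀ γ ∈ ball g₀ ρ, ‖a i γ‖ ≤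
      1 * Real.exp (-(2 * Real.pi * N * (low y₀ α (t i) C K g₀ γ - η))) := by
    intro i hi γ hγ
    have hI := hIF i hi γ (hball hγ)
    have h2 := (hF i hi).le (hball hγ) hI (right_mem_Icc.2 (hI.1.trans hI.2).le) (-1)
    refine h2.trans (mul_le_mul hκe (Real.exp_le_exp.2 ?_) (Real.exp_pos _).le zero_le_one)
    have hη0 : 0 ≤ η := by
      by_contra hneg
      have hLL : 0 ≤ L := by
        have := hLs j hj
        have h5 := abs_nonneg α
        have h6 := abs_nonneg (s j)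
        linarith
      have : 0 ≤ (L + 1) * κ := mul_nonneg (by linarith) hκ0
      linarith
    have h5 : low y₀ α (t i) C K g₀ γ - η ≤ low y₀ α (t i) C K g₀ γ - η' := by linarith
    have h6 := mul_le_mul_of_nonneg_left h5 hπ.le
    push_cast
    linarith
  have hub : ∀ i < P, ∀ γ ∈ ball g₀ ρ, ‖u i γ - 1‖ ≤ 1 / 2 := by
    intro i hi γ hγ
    change ‖1 + deriv (am (Bf i) h 0) (γ + am (F i) h 0 γ) - 1‖ ≤ _
    rw [add_sub_cancel_left]
    have h1 := fb_der (dB 0 i hi) (hB0 i hi) (q := ρ / 4) (by linarith)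
      (γ := γ + am (F i) h 0 γ) (by
        have := hsh i hi.le γ hγ
        linarith)
    refine h1.trans ?_
    rw [div_le_iff₀ (by linarith)]
    linarith
  have hEb : ∀ i < P, ∀ γ ∈ ball g₀ ρ, ‖E i γ‖ ≤
      1 * Real.exp (-(2 * Real.pi * N * (y₀ + δ / 4))) := by
    intro i hi γ hγ
    have hi1 : i + 1 ≤ P := hi
    have h1 := step_mode (y := y₀ - δ) hN0 hδ (by linarith : (0 : ℝ) < 2 * ρ) hNδ (hF i hi.le)
      (hG i hi.le) (hB i hi) hy (hTF i hi.le) (hTB i hi) hκδ (by linarith) (γ := γ)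
      (by
        have e : 2 * ρ / 2 = ρ := by ring
        rw [e]
        exact hγ)
    rw [← hh] at h1
    have h2 := fb_rel (hF i hi.le) (hF (i + 1) hi1) (hball hγ) (hIF i hi.le γ (hball hγ))
      (hIF (i + 1) hi1 γ (hball hγ)) (hrel i hi) (-1)
    have e1 : E i γ = am (fun p => Bf i (p.1 + N * G i p, p.2 + F i p)) h (-1) γ -
        (deriv (am (Bf i) h 0) (γ + am (F i) h 0 γ) * am (F i) h (-1) γ +
          exp (-(2 * Real.pi * I * (N * am (G i) h 0 γ))) *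
            am (Bf i) h (-1) (γ + am (F i) h 0 γ)) := by
      change am (F (i + 1)) h (-1) γ - (1 + deriv (am (Bf i) h 0) (γ + am (F i) h 0 γ)) *
        am (F i) h (-1) γ - exp (-(2 * Real.pi * I * (N * am (G i) h 0 γ))) *
          am (Bf i) h (-1) (γ + am (F i) h 0 γ) = _
      rw [h2]
      ring
    rw [e1]
    refine h1.trans (mul_le_mul hκ1 (Real.exp_le_exp.2 ?_) (Real.exp_pos _).le zero_le_one)
    have e2 : y₀ - δ + 5 / 4 * δ = y₀ + δ / 4 := by ring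
    rw [e2]
  have hfinal := hfin a u J E da (fun i hi => ⟨du i hi, dJ i hi,
      ((da (i + 1) hi).sub ((du i hi).mul (da i hi.le))).sub (dJ i hi)⟩)
    (fun i hi γ hγ => by
      change a (i + 1) γ = u i γ * a i γ + J i γ + (a (i + 1) γ - u i γ * a i γ - J i γ)
      ring) hub hJb hEb (hab 0 (Nat.zero_le P)) (hab P le_rfl)
  intro γ' hγ'
  obtain ⟨γ, hγ, hγe⟩ := fb_inv hρ hρ' hρρ (dF 0 j hj.le) (hF0 j hj.le) hκρ' hγ'
  have h1 := hfinal γ hγ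
  have hγρ : γ ∈ ball g₀ (2 * ρ) := ball_subset_ball (by linarith) hγ
  have e1 : am (Bf j) h (-1) γ' = exp (2 * Real.pi * I * (N * am (G j) h 0 γ)) * J j γ := by
    change _ = exp (2 * Real.pi * I * (N * am (G j) h 0 γ)) *
      (exp (-(2 * Real.pi * I * (N * am (G j) h 0 γ))) *
        am (Bf j) h (-1) (γ + am (F j) h 0 γ))
    rw [hγe, ← mul_assoc, ← Complex.exp_add, add_neg_cancel, Complex.exp_zero, one_mul]
  rw [e1, norm_mul]
  exact mul_le_mul (hexpG j hj.le γ hγρ).2 h1 (norm_nonneg _) (Real.exp_pos _).le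

/-- **MODE CALCULUS AND FBI (block A3).**
Proof. WLOG `K, C ≥ 0` (`K` from `hY` for some `i`; replace by `max K 0`, `max C 0`: for `C` use
`C ≥ 0` as hypothesis). `δ := min (y₀ - y) (y₀ - y₁) / 16 ..`, precisely: `h := y₀ - δ`, `y₁ + 2 δ ≤
h`, `y ≤ ..`: by `Per.indep` the coefficient does not depend on the height, so one may pass from the
height `y` to `h` (both below all tops for `γ` near `g₀`). Let `ρ` be so small that all `low ..` are
`≥ y₀ - δ / 8` on `ball g₀ (2 ρ)` and `2 ρ < r`. `fin_part` with `δ / 8` in place of `δ` gives `η,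
c, ρ'`. Let `κ > 0` be small (`κ ≤ δ / 64, ρ / 64`, `κ (1 + L) ≤ η / 4` where `L` is a Lipschitz
constant of the `low ..` on `ball g₀ (2 ρ)`, and derivatives of the mean values at most `1 / 2`:
`κ / (ρ / 2) ≤ 1 / 2`). For almost all `n` (finitely many conditions from `BC` with `η' = min (δ /
8) (η / 4)` and `δ = κ`): all `rs (ε n) (f i n)`, `rs (ε n) (g i n)`, `rs (ε n) (A ..)`, `rs (ε n)
(B ..)` are `Per (1 / ε n) y₁ κ (low .. - η')  g₀ (2 ρ)` (`per_rs`), `ε n ≤ δ / 2`. Put, with `N =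
1 / ε n`, `b := am (rs (B (i + 1) n)) (N h)`: `a i := am (rs (f i n)) (N h) (-1)`, `u i γ := 1 +
deriv (b 0) (γ + am (rs (f i n)) (N h) 0 γ)`, `J i γ := exp (- 2 π i N am (rs (g i n)) (N h) 0 γ) *
b (-1) (γ + am (rs (f i n)) (N h) 0 γ)`, `E i := a (i + 1) - u i a i - J i`. By `BC.rel`,
`rs f (i + 1) = rs f i + rs B (ζ + N rs g i, γ + rs f i)` on the line `Im ζ = N h`, so `step_mode`
(with `r = 2 ρ`) gives `‖E i‖ ≤ 2000 κ exp (- 2 π N (h + 5 / 4 δ)) = 2000 κ exp (- 2 π N (y₀ + δ /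
4))`. `a 0`, `a P`, `b (-1)` by `Per.le` (`m = -1`, at the top), `‖b (-1) (γ + f₀)‖` uses the
Lipschitz constant, `|exp (- 2 π i N g₀)| ≤ exp (2 π N κ)`. `fin_part` bounds `J j` on `ball g₀ ρ'`.
Finally every `γ' ∈ ball g₀ (ρ' / 2)` is `γ + f₀ (γ)` for some `γ ∈ ball g₀ ρ'` (`|f₀| ≤ κ`, `|f₀'|
≤ 1 / 2`: contraction), so `‖b (-1) γ'‖ ≤ exp (2 π N κ) ‖J j γ‖`, and `Y_b γ' ≤ y₀ + c / 4` near
`g₀`: the claim with `c / 4` for `n` large (`N` large absorbs the constants). -/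
theorem fbi {U : Ultrafilter ℕ} {ε : ℕ → ℝ} {g₀ : ℂ} {r y₁ y₀ y α K C : ℝ} {P j : ℕ}
    {T Yb : ℕ → ℂ → ℝ} {f g A B : ℕ → ℕ → ℂ × ℂ → ℂ} {s t : ℕ → ℝ} (hr : 0 < r)
    (hε : ∀ n, 0 < ε n) (hε0 : Tendsto ε U (𝓝 0)) (hBC : BC U ε g₀ r y₁ P T Yb f g A B)
    (hC : 0 ≤ C) (hy : y₁ < y) (hy' : y < y₀)
    (hY : ∀ i < P, ∀ γ ∈ ball g₀ r, |Yb (i + 1) γ - low y₀ α (s (i + 1)) 0 0 g₀ γ| ≤
      K * ‖γ - g₀‖ ^ 2)
    (hT : ∀ i ≤ P, ∀ γ ∈ ball g₀ r, low y₀ α (t i) C K g₀ γ ≤ T i γ)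
    (hj : j < P) (h0 : t 0 + C < s (j + 1)) (h1 : s (j + 1) < t P - C)
    (hs : ∀ i < P, i ≠ j → s (i + 1) ≠ s (j + 1)) :
    Dfc U ε y (Yb (j + 1)) g₀ (B (j + 1)) := by
  -- constants
  have hK : 0 ≤ K := by
    have h2 := hY j hj (g₀ + (r / 2 : ℝ)) (by
      rw [mem_ball, dist_eq_norm, add_sub_cancel_left, Complex.norm_real, Real.norm_eq_abs,
        abs_of_pos (by linarith)]
      linarith)
    rw [add_sub_cancel_left, Complex.norm_real, Real.norm_eq_abs,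
      abs_of_pos (by linarith : (0 : ℝ) < r / 2)] at h2
    have h3 : 0 ≤ K * (r / 2) ^ 2 := (abs_nonneg _).trans h2
    have h4 : 0 < (r / 2) ^ 2 := by positivity
    exact nonneg_of_mul_nonneg_left h3 h4
  obtain ⟨δ, hδe⟩ : ∃ δ, δ = (y₀ - y) / 4 := ⟨_, rfl⟩
  have hδ : 0 < δ := by rw [hδe]; linarith
  obtain ⟨Sm, hSm⟩ : ∃ Sm, Sm = ∑ i ∈ Finset.range (P + 2), (|s i| + |t i|) := ⟨_, rfl⟩
  have hSi : ∀ i < P + 2, |s i| ≤ Sm ∧ |t i| ≤ Sm := by
    intro i hi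
    have h2 : |s i| + |t i| ≤ Sm := by
      rw [hSm]
      exact Finset.single_le_sum (f := fun i => |s i| + |t i|)
        (fun k _ => add_nonneg (abs_nonneg _) (abs_nonneg _)) (Finset.mem_range.2 hi)
    exact ⟨by linarith [abs_nonneg (t i)], by linarith [abs_nonneg (s i)]⟩
  obtain ⟨L, hL⟩ : ∃ L, L = |α| + Sm + C + 3 * K + 1 := ⟨_, rfl⟩
  have hSm0 : 0 ≤ Sm := (abs_nonneg _).trans (hSi 0 (by omega)).1
  have hL1 : 1 ≤ L := by rw [hL]; linarith [abs_nonneg α]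
  have hLt : ∀ i ≤ P, |α| + |t i| + C + 3 * K ≤ L := by
    intro i hi
    rw [hL]
    linarith [(hSi i (by omega)).2]
  have hLs : ∀ i < P, |α| + |s (i + 1)| + 0 + 3 * K ≤ L := by
    intro i hi
    rw [hL]
    linarith [(hSi (i + 1) (by omega)).1]
  obtain ⟨ρ, hρe⟩ : ∃ ρ, ρ = min (min (r / 2) (1 / 2)) (δ / (32 * L)) := ⟨_, rfl⟩
  have hρ : 0 < ρ := by
    rw [hρe]
    exact lt_min (lt_min (by linarith) (by norm_num)) (by positivity)
  have hρr : 2 * ρ ≤ r := by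
    have : ρ ≤ r / 2 := by rw [hρe]; exact (min_le_left _ _).trans (min_le_left _ _)
    linarith
  have hρ1 : 2 * ρ ≤ 1 := by
    have : ρ ≤ 1 / 2 := by rw [hρe]; exact (min_le_left _ _).trans (min_le_right _ _)
    linarith
  have hρL : L * (2 * ρ) ≤ δ / 16 := by
    have h2 : ρ ≤ δ / (32 * L) := by rw [hρe]; exact min_le_right _ _
    have h3 := mul_le_mul_of_nonneg_left h2 (by linarith : 0 ≤ 2 * L)
    have h4 : 2 * L * (δ / (32 * L)) = δ / 16 := by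
      field_simp
      norm_num
    linarith
  have hlow : ∀ (s' C' : ℝ) (γ : ℂ), 0 ≤ C' → |α| + |s'| + C' + 3 * K ≤ L → γ ∈ ball g₀ (2 * ρ) →
      y₀ - δ / 16 ≤ low y₀ α s' C' K g₀ γ := by
    intro s' C' γ hC' hLL hγ
    rw [mem_ball, dist_eq_norm] at hγ
    have h2 := fb_low_ge (y₀ := y₀) (g₀ := g₀) (γ := γ) hC' hK (by linarith) hLL
    have h3 := mul_le_mul_of_nonneg_left hγ.le (by linarith : 0 ≤ L)
    linarith
  obtain ⟨η, c, ρ', hη, hc, hρ', hρρ, hfin⟩ := fin_part hj (y₀ := y₀) (α := α) (δ := δ / 4)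
    (K := K) (C := C) (ρ := ρ) (t0 := t 0) (tP := t P) (s := fun i => s (i + 1)) (g₀ := g₀)
    (by linarith) hρ hK hC h0 h1 hs
  obtain ⟨η', hη'e⟩ : ∃ η', η' = min (δ / 16) (η / 2) := ⟨_, rfl⟩
  have hη'0 : 0 < η' := by rw [hη'e]; exact lt_min (by linarith) (by linarith)
  have hη'δ : η' ≤ δ / 16 := by rw [hη'e]; exact min_le_left _ _
  have hη'η : η' ≤ η / 2 := by rw [hη'e]; exact min_le_right _ _
  obtain ⟨κ, hκe⟩ : ∃ κ, κ = min (min (δ / 64) (ρ' / 64)) (min (min (1 / 2000) (c / 4))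
    (η / (2 * (L + 1)))) := ⟨_, rfl⟩
  have hκ0 : 0 < κ := by
    rw [hκe]
    exact lt_min (lt_min (by linarith) (by linarith)) (lt_min (lt_min (by norm_num) (by linarith))
      (by positivity))
  have hκδ : κ ≤ δ / 64 := by rw [hκe]; exact (min_le_left _ _).trans (min_le_left _ _)
  have hκρ' : κ ≤ ρ' / 64 := by rw [hκe]; exact (min_le_left _ _).trans (min_le_right _ _)
  have hκ1 : κ ≤ 1 / 2000 := by
    rw [hκe]; exact (min_le_right _ _).trans ((min_le_left _ _).trans (min_le_left _ _))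
  have hκc : κ ≤ c / 4 := by
    rw [hκe]; exact (min_le_right _ _).trans ((min_le_left _ _).trans (min_le_right _ _))
  have hκη : (L + 1) * κ ≤ η / 2 := by
    have h2 : κ ≤ η / (2 * (L + 1)) := by
      rw [hκe]; exact (min_le_right _ _).trans (min_le_right _ _)
    have h3 := mul_le_mul_of_nonneg_left h2 (by linarith : 0 ≤ L + 1)
    have h4 : (L + 1) * (η / (2 * (L + 1))) = η / 2 := by
      field_simp
    linarith
  obtain ⟨M, hM⟩ : ∃ M : ℝ, M = 8 ^ P * (4 * P + 4) := ⟨_, rfl⟩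
  have hM0 : 0 < M := by rw [hM]; positivity
  obtain ⟨e0, he0⟩ : ∃ e0, e0 = min (min (δ / 2) 1) (c / M) := ⟨_, rfl⟩
  have he0p : 0 < e0 := by
    rw [he0]; exact lt_min (lt_min (by linarith) one_pos) (by positivity)
  -- the conditions on `n`
  have hb1 := (Set.finite_Iic P).eventually_all.2 fun i hi => hBC.box i hi η' hη'0
  have hb2 := (Set.finite_Iic P).eventually_all.2 fun i hi => hBC.box_lim i hi η' hη'0 κ hκ0
  have hp1 := (Set.finite_Iio P).eventually_all.2 fun i hi => hBC.pas i hi η' hη'0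
  have hp2 := (Set.finite_Iio P).eventually_all.2 fun i hi => hBC.pas_lim i hi η' hη'0 κ hκ0
  have hr1 := (Set.finite_Iio P).eventually_all.2 fun i hi => hBC.rel i hi η' hη'0
  have hεs : ∀ᶠ n in (U : Filter ℕ), ε n < e0 := hε0.eventually (gt_mem_nhds he0p)
  refine ⟨c / 4, by linarith, min (ρ' / 2) (c / (4 * L)), lt_min (by linarith) (by positivity), ?_⟩
  filter_upwards [hb1, hb2, hp1, hp2, hr1, hεs] with n k1 k2 k3 k4 k5 k6
  intro γ' hγ'
  have hen := hε n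
  obtain ⟨N, hNe⟩ : ∃ N, N = 1 / ε n := ⟨_, rfl⟩
  have heN : ε n * N = 1 := by rw [hNe]; field_simp
  have heNc : (ε n : ℂ) * (N : ℂ) = 1 := by exact_mod_cast heN
  have hN0 : 0 < N := by rw [hNe]; positivity
  have hNge : ∀ x : ℝ, 0 < x → e0 ≤ x → 1 ≤ N * x := by
    intro x hx hex
    have h2 : ε n ≤ x := (k6.le).trans hex
    calc (1 : ℝ) = N * ε n := by rw [mul_comm]; exact heN.symm
      _ ≤ N * x := mul_le_mul_of_nonneg_left h2 hN0.le
  have hN1 : 1 ≤ N := by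
    have := hNge 1 one_pos (by rw [he0]; exact (min_le_left _ _).trans (min_le_right _ _))
    linarith
  have hNδ : 2 ≤ N * δ := by
    have := hNge (δ / 2) (by linarith) (by
      rw [he0]; exact (min_le_left _ _).trans (min_le_left _ _))
    linarith
  have hNM : M ≤ N * c := by
    have h2 := hNge (c / M) (by positivity) (by rw [he0]; exact min_le_right _ _)
    have h3 := mul_le_mul_of_nonneg_left h2 hM0.le
    have h4 : M * (N * (c / M)) = N * c := by field_simp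
    linarith
  have hTF : ∀ i ≤ P, ∀ γ ∈ ball g₀ (2 * ρ),
      y₀ - δ + 3 / 4 * δ < low y₀ α (t i) C K g₀ γ - η' := by
    intro i hi γ hγ
    have := hlow (t i) C γ hC (hLt i hi) hγ
    linarith
  have hTB : ∀ i < P, ∀ γ ∈ ball g₀ (2 * ρ),
      y₀ - δ + 3 / 4 * δ < low y₀ α (s (i + 1)) 0 K g₀ γ - η' := by
    intro i hi γ hγ
    have := hlow (s (i + 1)) 0 γ le_rfl (hLs i hi) hγ
    linarith
  have hYge : ∀ i < P, ∀ γ ∈ ball g₀ (2 * ρ),
      low y₀ α (s (i + 1)) 0 K g₀ γ ≤ Yb (i + 1) γ := by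
    intro i hi γ hγ
    have h2 := (abs_le.1 (hY i hi γ (ball_subset_ball hρr hγ))).1
    have h3 : low y₀ α (s (i + 1)) 0 K g₀ γ =
        low y₀ α (s (i + 1)) 0 0 g₀ γ - K * ‖γ - g₀‖ ^ 2 := by
      unfold low
      ring
    linarith
  have hTge : ∀ i ≤ P, ∀ γ ∈ ball g₀ (2 * ρ), low y₀ α (t i) C K g₀ γ ≤ T i γ :=
    fun i hi γ hγ => hT i hi γ (ball_subset_ball hρr hγ)
  have pF : ∀ i ≤ P, Per N y₁ κ (fun γ => low y₀ α (t i) C K g₀ γ - η') g₀ (2 * ρ)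
      (rs (ε n) (f i n)) := by
    intro i hi
    rw [hNe]
    exact per_rs hen hρr (T := fun γ => T i γ - η')
      (fun γ hγ => sub_le_sub_right (hTge i hi γ hγ) _) (k1 i hi).1
      (fun p => (hBC.per i n p).1) fun p hp => (k2 i hi p hp).1
  have pG : ∀ i ≤ P, Per N y₁ κ (fun γ => low y₀ α (t i) C K g₀ γ - η') g₀ (2 * ρ)
      (rs (ε n) (g i n)) := by
    intro i hi
    rw [hNe]
    exact per_rs hen hρr (T := fun γ => T i γ - η')
      (fun γ hγ => sub_le_sub_right (hTge i hi γ hγ) _) (k1 i hi).2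
      (fun p => (hBC.per i n p).2.1) fun p hp => (k2 i hi p hp).2
  have pB : ∀ i < P, Per N y₁ κ (fun γ => low y₀ α (s (i + 1)) 0 K g₀ γ - η') g₀ (2 * ρ)
      (rs (ε n) (B (i + 1) n)) := by
    intro i hi
    rw [hNe]
    exact per_rs hen hρr (T := fun γ => Yb (i + 1) γ - η')
      (fun γ hγ => sub_le_sub_right (hYge i hi γ hγ) _) (k3 i hi).2
      (fun p => (hBC.per (i + 1) n p).2.2.2) fun p hp => (k4 i hi p hp).2
  have hrel : ∀ i < P, ∀ p : ℂ × ℂ, p.1.im = N * (y₀ - δ) → p.2 ∈ ball g₀ (2 * ρ) →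
      rs (ε n) (f (i + 1) n) p = rs (ε n) (f i n) p + rs (ε n) (B (i + 1) n)
        (p.1 + N * rs (ε n) (g i n) p, p.2 + rs (ε n) (f i n) p) := by
    intro i hi p hp1 hp2
    have him : ((ε n : ℂ) * p.1).im = y₀ - δ := by
      have e1 : ((ε n : ℂ) * p.1).im = ε n * p.1.im := by simp
      rw [e1, hp1, ← mul_assoc, heN, one_mul]
    have h2 := (k5 i hi ((ε n : ℂ) * p.1, p.2) ⟨ball_subset_ball hρr hp2, by
        change y₁ < ((ε n : ℂ) * p.1).im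
        rw [him]
        linarith, by
        change ((ε n : ℂ) * p.1).im < min (min (T i p.2) (T (i + 1) p.2)) (Yb (i + 1) p.2) - η'
        rw [him, lt_sub_iff_add_lt]
        have h3 := hTF i hi.le p.2 hp2
        have h4 := hTF (i + 1) hi p.2 hp2
        have h5 := hTB i hi p.2 hp2
        have h6 := hTge i hi.le p.2 hp2
        have h7 := hTge (i + 1) hi p.2 hp2
        have h8 := hYge i hi p.2 hp2
        exact lt_min (lt_min (by linarith) (by linarith)) (by linarith)⟩).1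
    unfold rs
    rw [h2]
    congr 2
    refine Prod.ext ?_ rfl
    change (ε n : ℂ) * p.1 + g i n ((ε n : ℂ) * p.1, p.2) =
      (ε n : ℂ) * (p.1 + N * g i n ((ε n : ℂ) * p.1, p.2))
    rw [mul_add, ← mul_assoc, heNc, one_mul]
  have hy3 : y₁ + 2 * δ ≤ y₀ - δ := by
    rw [hδe]
    linarith
  have key := fb_n hj (N := N) (y₁ := y₁) (y₀ := y₀) (κ := κ) (α := α) (K := K) (C := C)
    (δ := δ) (η := η) (η' := η') (c := c) (ρ := ρ) (ρ' := ρ') (L := L)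
    (s := fun i => s (i + 1)) (t := t) (g₀ := g₀)
    (F := fun i => rs (ε n) (f i n)) (G := fun i => rs (ε n) (g i n))
    (Bf := fun i => rs (ε n) (B (i + 1) n))
    (fun a u J E => hfin N 1 hN1 zero_le_one a u J E) hN1 hδ hNδ hρ hρ1 hρ' hρρ hy3 hK hκ0.le
    hκδ (by linarith) (by linarith) (by linarith) hκη hη'η hLs pF pG pB hTF hTB hrel
    γ' (ball_subset_ball (min_le_left _ _) hγ')
  have hγL : ‖γ' - g₀‖ < c / (4 * L) := by
    rw [mem_ball, dist_eq_norm] at hγ'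
    exact hγ'.trans_le (min_le_right _ _)
  have hγρ : γ' ∈ ball g₀ (2 * ρ) := by
    refine ball_subset_ball ?_ hγ'
    exact (min_le_left _ _).trans (by linarith)
  have hz1 : ‖γ' - g₀‖ ≤ 1 := by
    rw [mem_ball, dist_eq_norm] at hγρ
    linarith
  have hYle : Yb (j + 1) γ' ≤ y₀ + c / 4 := by
    have h2 := (abs_le.1 (hY j hj γ' (ball_subset_ball hρr hγρ))).2
    have h3 := fb_low_le (y₀ := y₀) (α := α) (s := s (j + 1)) (K := K) (L := L) (g₀ := g₀)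
      (γ := γ') hK hz1 (by linarith [hLs j hj])
    have h4 : L * ‖γ' - g₀‖ ≤ c / 4 := by
      have h5 := mul_le_mul_of_nonneg_left hγL.le (by linarith : 0 ≤ L)
      have h6 : L * (c / (4 * L)) = c / 4 := by field_simp
      linarith
    linarith
  have hmd : md (ε n) y (B (j + 1) n) (-1) γ' =
      am (rs (ε n) (B (j + 1) n)) (N * (y₀ - δ)) (-1) γ' := by
    have e1 : y / ε n = N * y := by rw [hNe]; ring
    unfold md
    rw [e1]
    have h3 := hTB j hj γ' hγρ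
    refine (pB j hj).indep hγρ ?_ ?_ (-1)
    · exact ⟨mul_lt_mul_of_pos_left hy hN0, mul_lt_mul_of_pos_left (by linarith) hN0⟩
    · exact ⟨mul_lt_mul_of_pos_left (by linarith) hN0,
        mul_lt_mul_of_pos_left (by linarith) hN0⟩
  rw [hmd]
  refine key.trans ?_
  have hπN : 0 < 2 * Real.pi * N := by positivity
  have hMexp : M ≤ Real.exp (2 * Real.pi * N * (c / 4)) := by
    have h2 := Real.add_one_le_exp (2 * Real.pi * N * (c / 4))
    have h3 : N * c ≤ 2 * Real.pi * N * (c / 4) := by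
      have h4 : (2 : ℝ) ≤ Real.pi := Real.two_le_pi
      have h5 := mul_le_mul_of_nonneg_right h4 (by positivity : 0 ≤ N * c / 2)
      linarith
    linarith
  rw [mul_one, ← hM]
  calc Real.exp (2 * Real.pi * N * κ) * (M * Real.exp (-(2 * Real.pi * N * (y₀ + c))))
      ≤ Real.exp (2 * Real.pi * N * (c / 4)) * (Real.exp (2 * Real.pi * N * (c / 4)) *
          Real.exp (-(2 * Real.pi * N * (y₀ + c)))) := by
        refine mul_le_mul (Real.exp_le_exp.2 (mul_le_mul_of_nonneg_left hκc hπN.le))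
          (mul_le_mul_of_nonneg_right hMexp (Real.exp_pos _).le) (by positivity)
          (Real.exp_pos _).le
    _ = Real.exp (2 * Real.pi * N * (-(y₀ + c / 2))) := by
        rw [← Real.exp_add, ← Real.exp_add]
        congr 1
        ring
    _ ≤ Real.exp (-(2 * Real.pi / ε n * (Yb (j + 1) γ' + c / 4))) := by
        refine Real.exp_le_exp.2 ?_
        have e2 : 2 * Real.pi / ε n = 2 * Real.pi * N := by rw [hNe]; ring
        rw [e2]
        have h6 := mul_le_mul_of_nonneg_left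
          (by linarith : Yb (j + 1) γ' + c / 4 ≤ y₀ + c / 2) hπN.le
        linarith

end Pool.Agent.MP_ae5b4e_an_A3
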