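import Pool.Agent.Lib.MP_ae5b4e_an_A3.Defs

/-! # A3: the oscillating part of a periodic function deep in its strip -/

set_option autoImplicit false

noncomputable section

namespace Pool.Agent.MP_ae5b4e_an_A3

open Complex Set Filter Topology Metric
open Pool.Agent.MP_ae5b4e_an_MERO (fo St fo_indep norm_fo_le hasSum_fo)
open Pool.Agent.MP_ae5b4e_an_A4 (am Per SN)

/-- The oscillating part at distance `d ≥ 1` from the boundary of the strip.
Proof. `hasSum_fo` at `t`, with the coefficients at the height `y'`. The term `m = 0` is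
`fo f y' 0`. By `fo_indep`, for `m ≥ 1` use the height `Im t - d`, for `m ≤ -1` the height
`Im t + d` (both in `Ioo a b`) in `norm_fo_le`: `‖fo m‖ * ‖exp (2 π i m t)‖ ≤ κ exp (2 π m (Im t ∓
d)) exp (- 2 π m Im t) = κ exp (- 2 π |m| d)`. With `q = exp (- 2 π d) ≤ 1 / 3` the sum over
`m ≠ 0` is at most `2 κ q / (1 - q) ≤ 3 κ q`. -/
theorem osc_le {a b κ d : ℝ} {f : ℂ → ℂ} (hf : DifferentiableOn ℂ f (St a b))
    (hper : ∀ t ∈ St a b, f (t + 1) = f t) (hbd : ∀ t ∈ St a b, ‖f t‖ ≤ κ) (hd : 1 ≤ d) {t : ℂ}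
    (h1 : a + d < t.im) (h2 : t.im + d < b) {y' : ℝ} (hy' : y' ∈ Ioo a b) :
    ‖f t - fo f y' 0‖ ≤ 4 * κ * Real.exp (-(2 * Real.pi * d)) := by
  obtain ⟨q, hq⟩ : ∃ q : ℝ, q = Real.exp (-(2 * Real.pi * d)) := ⟨_, rfl⟩
  have hpi := Real.pi_gt_three
  have hq0 : 0 < q := hq ▸ Real.exp_pos _
  have hq2 : q ≤ 1 / 2 := by
    have e1 : 1 ≤ 2 * Real.pi * d := by nlinarith
    have e2 := Real.add_one_le_exp (2 * Real.pi * d)
    rw [hq, Real.exp_neg, inv_le_comm₀ (Real.exp_pos _) (by norm_num)]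
    norm_num
    linarith
  have ht : t ∈ St a b := ⟨by linarith, by linarith⟩
  have hκ : 0 ≤ κ := (norm_nonneg _).trans (hbd t ht)
  obtain ⟨c, hc⟩ : ∃ c : ℤ → ℂ, c = fun m : ℤ => fo f y' m * exp (2 * Real.pi * I * m * t) :=
    ⟨_, rfl⟩
  have hs : HasSum c (f t) := by
    rw [hc]
    exact hasSum_fo hf hper ht hy'
  have hpos : ∀ n : ℕ, ‖c ((n : ℤ) + 1)‖ ≤ κ * q ^ (n + 1) := by
    intro n
    have hy1 : t.im - d ∈ Ioo a b := ⟨by linarith, by linarith⟩
    have e1 := norm_fo_le (f := f) (y := t.im - d) (M := κ)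
      (fun z hz => hbd z ⟨by rw [hz]; linarith, by rw [hz]; linarith⟩) ((n : ℤ) + 1)
    rw [hc]
    simp only
    rw [norm_mul, Pool.Agent.MP_ae5b4e_an_A4.norm_e, fo_indep hf hper hy' hy1]
    calc ‖fo f (t.im - d) ((n : ℤ) + 1)‖ *
          Real.exp (-(2 * Real.pi * (((n : ℤ) + 1 : ℤ) : ℝ) * t.im))
        ≤ (κ * Real.exp (2 * Real.pi * (((n : ℤ) + 1 : ℤ) : ℝ) * (t.im - d))) *
          Real.exp (-(2 * Real.pi * (((n : ℤ) + 1 : ℤ) : ℝ) * t.im)) :=
          mul_le_mul_of_nonneg_right e1 (Real.exp_pos _).le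
      _ = κ * q ^ (n + 1) := by
          rw [hq, ← Real.exp_nat_mul, mul_assoc, ← Real.exp_add]
          congr 2
          push_cast
          ring
  have hneg : ∀ n : ℕ, ‖c (-((n : ℤ) + 1))‖ ≤ κ * q ^ (n + 1) := by
    intro n
    have hy1 : t.im + d ∈ Ioo a b := ⟨by linarith, by linarith⟩
    have e1 := norm_fo_le (f := f) (y := t.im + d) (M := κ)
      (fun z hz => hbd z ⟨by rw [hz]; linarith, by rw [hz]; linarith⟩) (-((n : ℤ) + 1))
    rw [hc]
    simp only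
    rw [norm_mul, Pool.Agent.MP_ae5b4e_an_A4.norm_e, fo_indep hf hper hy' hy1]
    calc ‖fo f (t.im + d) (-((n : ℤ) + 1))‖ *
          Real.exp (-(2 * Real.pi * ((-((n : ℤ) + 1) : ℤ) : ℝ) * t.im))
        ≤ (κ * Real.exp (2 * Real.pi * ((-((n : ℤ) + 1) : ℤ) : ℝ) * (t.im + d))) *
          Real.exp (-(2 * Real.pi * ((-((n : ℤ) + 1) : ℤ) : ℝ) * t.im)) :=
          mul_le_mul_of_nonneg_right e1 (Real.exp_pos _).le
      _ = κ * q ^ (n + 1) := by
          rw [hq, ← Real.exp_nat_mul, mul_assoc, ← Real.exp_add]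
          congr 2
          push_cast
          ring
  have hg : HasSum (fun n : ℕ => κ * q ^ (n + 1)) (κ * (q * (1 - q)⁻¹)) := by
    refine HasSum.mul_left κ ?_
    have e1 : (fun n : ℕ => q ^ (n + 1)) = fun n : ℕ => q * q ^ n := by
      funext n
      ring
    rw [e1]
    exact (hasSum_geometric_of_lt_one hq0.le (by linarith)).mul_left q
  have hs1 : Summable fun n : ℕ => c ((n : ℤ) + 1) :=
    Summable.of_norm_bounded hg.summable hpos
  have hs0 : Summable fun n : ℕ => c (n : ℤ) := by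
    rw [← summable_nat_add_iff 1]
    simpa using hs1
  have hs2 : Summable fun n : ℕ => c (-((n : ℤ) + 1)) :=
    Summable.of_norm_bounded hg.summable hneg
  have hsum : f t = c 0 + (∑' n : ℕ, c ((n : ℤ) + 1)) + ∑' n : ℕ, c (-((n : ℤ) + 1)) := by
    rw [← hs.tsum_eq, tsum_of_nat_of_neg_add_one hs0 hs2, hs0.tsum_eq_zero_add]
    simp
  have hc0 : c 0 = fo f y' 0 := by
    rw [hc]
    simp
  have hb1 := tsum_of_norm_bounded hg hpos
  have hb2 := tsum_of_norm_bounded hg hneg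
  have e3 : f t - fo f y' 0 =
      (∑' n : ℕ, c ((n : ℤ) + 1)) + ∑' n : ℕ, c (-((n : ℤ) + 1)) := by
    rw [hsum, hc0]
    ring
  rw [e3, ← hq]
  refine (norm_add_le _ _).trans ?_
  have e4 : κ * (q * (1 - q)⁻¹) ≤ 2 * κ * q := by
    have e5 : (1 - q)⁻¹ ≤ 2 := by
      rw [inv_le_comm₀ (by linarith) (by norm_num)]
      linarith
    have e6 : q * (1 - q)⁻¹ ≤ q * 2 := mul_le_mul_of_nonneg_left e5 hq0.le
    have e7 := mul_le_mul_of_nonneg_left e6 hκ
    linarith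
  linarith

/-- The same for `Per`. Proof. `osc_le` for the slice (`Per.slice`, `Per.bd`). -/
theorem Per_osc {N y1 κ d : ℝ} {T : ℂ → ℝ} {g0 : ℂ} {r : ℝ} {F : ℂ × ℂ → ℂ}
    (hF : Per N y1 κ T g0 r F) (hd : 1 ≤ d) {ζ γ : ℂ} (hγ : γ ∈ ball g0 r)
    (h1 : N * y1 + d < ζ.im) (h2 : ζ.im + d < N * T γ) {y' : ℝ}
    (hy' : y' ∈ Ioo (N * y1) (N * T γ)) :
    ‖F (ζ, γ) - am F y' 0 γ‖ ≤ 4 * κ * Real.exp (-(2 * Real.pi * d)) := by
  exact osc_le (f := fun ζ => F (ζ, γ)) (hF.slice hγ).1 (hF.slice hγ).2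
    (fun t ht => hF.bd (t, γ) ⟨hγ, ht.1, ht.2⟩) hd h1 h2 hy'

/-- The mean value is bounded by `κ`. Proof. `norm_fo_le` with `m = 0` on the line `Im = y'`. -/
theorem Per_zero {N y1 κ : ℝ} {T : ℂ → ℝ} {g0 : ℂ} {r : ℝ} {F : ℂ × ℂ → ℂ}
    (hF : Per N y1 κ T g0 r F) {γ : ℂ} (hγ : γ ∈ ball g0 r) {y' : ℝ}
    (hy' : y' ∈ Ioo (N * y1) (N * T γ)) : ‖am F y' 0 γ‖ ≤ κ := by
  have h1 := norm_fo_le (f := fun ζ => F (ζ, γ)) (y := y') (M := κ)
    (fun z hz => hF.bd (z, γ) ⟨hγ, by simpa [hz] using hy'.1, by simpa [hz] using hy'.2⟩) 0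
  rw [Int.cast_zero, mul_zero, zero_mul, Real.exp_zero, mul_one] at h1
  exact h1

/-- Translation of the argument by a complex number: `∫ f (ζ + s) e^{-2πimζ} = e^{2πims} fo f m`.
Proof. At the height `y`: `fo (fun ζ => f (ζ + s)) y m = exp (2 π i m s) ∫₀¹ f (x + s.re + i (y +
s.im)) exp (- 2 π i m (x + s.re + i (y + s.im))) dx`, the integrand is a function of period `1` of
`x + s.re` (`Function.Periodic.intervalIntegral_add_eq` and a substitution): `= exp (2 π i m s) fo f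
(y + s.im) m`, then `fo_indep`. -/
theorem fo_trans {a b : ℝ} {f : ℂ → ℂ} (hf : DifferentiableOn ℂ f (St a b))
    (hper : ∀ t ∈ St a b, f (t + 1) = f t) {s : ℂ} {y : ℝ} (hy : y ∈ Ioo a b)
    (hy' : y + s.im ∈ Ioo a b) (m : ℤ) :
    fo (fun ζ => f (ζ + s)) y m = exp (2 * Real.pi * I * m * s) * fo f y m := by
  rw [fo_indep hf hper hy hy' m]
  obtain ⟨g, hg⟩ : ∃ g : ℝ → ℂ, g = fun u : ℝ => f (u + ((y + s.im : ℝ) : ℂ) * I) *
      exp (-(2 * Real.pi * I * m * (u + ((y + s.im : ℝ) : ℂ) * I))) := ⟨_, rfl⟩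
  have hgp : Function.Periodic g 1 := by
    intro u
    have e1 : (((u + 1 : ℝ) : ℂ) + ((y + s.im : ℝ) : ℂ) * I) =
        (u + ((y + s.im : ℝ) : ℂ) * I) + 1 := by
      push_cast
      ring
    have e2 := hper (u + ((y + s.im : ℝ) : ℂ) * I) (by
      constructor
      · simpa using hy'.1
      · simpa using hy'.2)
    have e3 : -(2 * Real.pi * I * m * ((u + ((y + s.im : ℝ) : ℂ) * I) + 1)) =
        -(2 * Real.pi * I * m * (u + ((y + s.im : ℝ) : ℂ) * I)) +
          ((-m : ℤ) : ℂ) * (2 * Real.pi * I) := by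
      push_cast
      ring
    rw [hg]
    simp only
    rw [e1, e2, e3]
    rw [(Complex.exp_periodic.int_mul (-m)) _]
  have h1 : fo (fun ζ => f (ζ + s)) y m =
      exp (2 * Real.pi * I * m * s) * ∫ x in (0:ℝ)..1, g (x + s.re) := by
    unfold fo
    rw [← intervalIntegral.integral_const_mul]
    apply intervalIntegral.integral_congr
    intro x _
    have e1 : ((x : ℂ) + y * I) + s = ((x + s.re : ℝ) : ℂ) + ((y + s.im : ℝ) : ℂ) * I := by
      conv_lhs => rw [← Complex.re_add_im s]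
      push_cast
      ring
    have e2 : exp (-(2 * Real.pi * I * m * (x + y * I))) = exp (2 * Real.pi * I * m * s) *
        exp (-(2 * Real.pi * I * m * (((x : ℂ) + y * I) + s))) := by
      rw [← Complex.exp_add]
      congr 1
      ring
    rw [hg]
    simp only
    rw [e2, e1]
    ring
  have h2 : fo f (y + s.im) m = ∫ x in (0:ℝ)..1, g x := by
    rw [hg]
    rfl
  rw [h1, h2, intervalIntegral.integral_comp_add_right]
  congr 1
  have h3 := hgp.intervalIntegral_add_eq s.re 0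
  rw [zero_add] at h3
  rw [zero_add, add_comm (1 : ℝ)]
  exact h3

end Pool.Agent.MP_ae5b4e_an_A3
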