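import Pool.Agent.Lib.MP_ae5b4e_an_A3.Defs

/-! # A3: bounded holomorphic functions move little in the middle of a large disc -/

set_option autoImplicit false

noncomputable section

namespace Pool.Agent.MP_ae5b4e_an_A3

open Complex Set Filter Topology Metric
open Pool.Agent.MP_ae5b4e_an_A4 (am Per SN)

private theorem seg_M {φ : ℂ → ℂ} {R M : ℝ} (hR : 0 < R)
    (hM : ∀ t ∈ ball (0:ℂ) R, ‖φ t‖ ≤ M) : 0 ≤ M :=
  (norm_nonneg _).trans (hM 0 (mem_ball_self hR))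

private theorem seg_maps {φ : ℂ → ℂ} {R M : ℝ} (hR : 0 < R)
    (hM : ∀ t ∈ ball (0:ℂ) R, ‖φ t‖ ≤ M) :
    MapsTo φ (ball 0 R) (closedBall (φ 0) (2 * M)) := by
  intro t ht
  rw [mem_closedBall, dist_eq_norm]
  have h1 := hM t ht
  have h2 := hM 0 (mem_ball_self hR)
  have h3 := norm_sub_le (φ t) (φ 0)
  linarith

private theorem seg1' {φ : ℂ → ℂ} {R M : ℝ} (hR : 1 < R) (hφ : DifferentiableOn ℂ φ (ball 0 R))
    (hM : ∀ t ∈ ball (0:ℂ) R, ‖φ t‖ ≤ M) : ‖φ 1 - φ 0‖ ≤ 2 * M / R := by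
  have h1 : (1 : ℂ) ∈ ball (0 : ℂ) R := by
    rw [mem_ball_zero_iff, norm_one]
    exact hR
  have h2 := Complex.dist_le_div_mul_dist_of_mapsTo_ball hφ (seg_maps (by linarith) hM) h1
  rw [dist_eq_norm, dist_zero_right, norm_one, mul_one] at h2
  exact h2

/-- Proof. Cauchy estimate for `deriv φ` on `‖t‖ ≤ 1` (radius `R - 1 ≥ R / 2`; on a smaller radius
and limit, or radius `R / 2`): `‖deriv φ t‖ ≤ M / (R / 2)`, mean value inequality. -/
theorem seg1 {φ : ℂ → ℂ} {R M : ℝ} (hR : 2 ≤ R) (hφ : DifferentiableOn ℂ φ (ball 0 R))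
    (hM : ∀ t ∈ ball (0:ℂ) R, ‖φ t‖ ≤ M) : ‖φ 1 - φ 0‖ ≤ 4 * M / R := by
  have h1 := seg1' (by linarith) hφ hM
  have h2 := seg_M (by linarith) hM
  refine h1.trans (div_le_div_of_nonneg_right ?_ (by linarith))
  linarith

/-- Proof. On `[0, 1]` the derivative of `ψ t = φ t - φ 0 - t φ' 0` is `φ' t - φ' 0`; the Cauchy
estimate for the bounded function `φ'` (`≤ M / (R / 4)` on `ball 0 (3 R / 4)`) and `seg1`-type
bound: `‖φ' t - φ' 0‖ ≤ C M / R ^ 2`. Or: power series, `‖a_n‖ ≤ M / R ^ n`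
(`Complex.norm_cderiv_le` is not needed:
`Complex.norm_iteratedDeriv_le_of_forall_mem_sphere_norm_le`).
-/
theorem seg2 {φ : ℂ → ℂ} {R M : ℝ} (hR : 4 ≤ R) (hφ : DifferentiableOn ℂ φ (ball 0 R))
    (hM : ∀ t ∈ ball (0:ℂ) R, ‖φ t‖ ≤ M) : ‖φ 1 - φ 0 - deriv φ 0‖ ≤ 64 * M / R ^ 2 := by
  have hR0 : 0 < R := by linarith
  have h2 := seg_M hR0 hM
  have h3 : DifferentiableOn ℂ (dslope φ 0) (ball 0 R) :=
    (differentiableOn_dslope (ball_mem_nhds _ hR0)).mpr hφ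
  have h4 := seg1' (φ := dslope φ 0) (M := 2 * M / R) (by linarith) h3 fun t ht =>
    Complex.norm_dslope_le_div_of_mapsTo_ball hφ (seg_maps hR0 hM) ht
  rw [dslope_same, dslope_of_ne _ (one_ne_zero), slope_def_field, sub_zero, div_one] at h4
  refine h4.trans ?_
  have h5 : 2 * (2 * M / R) / R = 4 * M / R ^ 2 := by
    field_simp
    ring
  rw [h5]
  refine div_le_div_of_nonneg_right ?_ (by positivity)
  linarith

/-- Mean values: `𝔹₀ (γ + t v)`. Let `b` be holomorphic and bounded by `M` on `ball g0 r`,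
`‖γ - g0‖ < r / 2 + r / 4`, `‖v‖ ≤ r / (4 R)`. Proof. `seg2` for `φ t = b (γ + t v)`, `deriv φ 0 =
deriv b γ * v`. -/
theorem seg_mean {b : ℂ → ℂ} {g0 γ v : ℂ} {r R M : ℝ} (hr : 0 < r) (hR : 4 ≤ R)
    (hb : DifferentiableOn ℂ b (ball g0 r)) (hM : ∀ w ∈ ball g0 r, ‖b w‖ ≤ M)
    (hγ : ‖γ - g0‖ < 3 / 4 * r) (hv : ‖v‖ ≤ r / (4 * R)) :
    ‖b (γ + v) - b γ - deriv b γ * v‖ ≤ 64 * M / R ^ 2 := by
  have hR0 : 0 < R := by linarith
  have hmem : ∀ t ∈ ball (0 : ℂ) R, γ + t * v ∈ ball g0 r := by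
    intro t ht
    rw [mem_ball_zero_iff] at ht
    rw [mem_ball, dist_eq_norm]
    have h1 : ‖t * v‖ ≤ r / 4 := by
      rw [norm_mul]
      calc ‖t‖ * ‖v‖ ≤ R * (r / (4 * R)) :=
            mul_le_mul ht.le hv (norm_nonneg _) hR0.le
        _ = r / 4 := by
            field_simp
    have h2 : γ + t * v - g0 = (γ - g0) + t * v := by ring
    rw [h2]
    have h3 := norm_add_le (γ - g0) (t * v)
    linarith
  have hφ : DifferentiableOn ℂ (fun t : ℂ => b (γ + t * v)) (ball 0 R) :=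
    hb.comp (by fun_prop) hmem
  have h1 := seg2 hR hφ fun t ht => hM _ (hmem t ht)
  have h2 : deriv (fun t : ℂ => b (γ + t * v)) 0 = deriv b γ * v := by
    have h3 : γ ∈ ball g0 r := by
      have := hmem 0 (mem_ball_self hR0)
      rwa [zero_mul, add_zero] at this
    have h4 : HasDerivAt b (deriv b γ) (γ + 0 * v) := by
      rw [zero_mul, add_zero]
      exact (hb.differentiableAt (isOpen_ball.mem_nhds h3)).hasDerivAt
    have h5 : HasDerivAt (fun t : ℂ => γ + t * v) (1 * v) 0 :=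
      ((hasDerivAt_id (0 : ℂ)).mul_const v).const_add γ
    have h6 := HasDerivAt.comp (h₂ := b) (h := fun t : ℂ => γ + t * v) 0 h4 h5
    rw [one_mul] at h6
    exact h6.deriv
  rw [h2] at h1
  simp only [one_mul, zero_mul, add_zero] at h1
  exact h1

/-- The oscillating part `b (ζ, γ) - m γ` along a complex segment. Proof. `seg1` for `φ t = b (ζ + t
u, γ + t v) - m (γ + t v)`, `t ∈ ball 0 R`. -/
theorem seg_osc {b : ℂ × ℂ → ℂ} {m : ℂ → ℂ} {g0 ζ γ u v : ℂ} {r R M y0 e : ℝ} (hr : 0 < r)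
    (hR : 2 ≤ R) (he : 0 < e)
    (hb : ∀ p : ℂ × ℂ, |p.1.im - y0| < e → p.2 ∈ ball g0 r → AnalyticAt ℂ b p)
    (hm : DifferentiableOn ℂ m (ball g0 r))
    (hM : ∀ p : ℂ × ℂ, |p.1.im - y0| < e → p.2 ∈ ball g0 r → ‖b p - m p.2‖ ≤ M)
    (hζ : |ζ.im - y0| < e / 2) (hγ : ‖γ - g0‖ < 3 / 4 * r) (hu : ‖u‖ ≤ e / (2 * R))
    (hv : ‖v‖ ≤ r / (4 * R)) :
    ‖(b (ζ + u, γ + v) - m (γ + v)) - (b (ζ, γ) - m γ)‖ ≤ 4 * M / R := by
  have hR0 : 0 < R := by linarith
  have hmem : ∀ t ∈ ball (0 : ℂ) R, γ + t * v ∈ ball g0 r := by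
    intro t ht
    rw [mem_ball_zero_iff] at ht
    rw [mem_ball, dist_eq_norm]
    have h1 : ‖t * v‖ ≤ r / 4 := by
      rw [norm_mul]
      calc ‖t‖ * ‖v‖ ≤ R * (r / (4 * R)) :=
            mul_le_mul ht.le hv (norm_nonneg _) hR0.le
        _ = r / 4 := by
            field_simp
    have h2 : γ + t * v - g0 = (γ - g0) + t * v := by ring
    rw [h2]
    have h3 := norm_add_le (γ - g0) (t * v)
    linarith
  have him : ∀ t ∈ ball (0 : ℂ) R, |(ζ + t * u).im - y0| < e := by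
    intro t ht
    rw [mem_ball_zero_iff] at ht
    have h1 : ‖t * u‖ ≤ e / 2 := by
      rw [norm_mul]
      calc ‖t‖ * ‖u‖ ≤ R * (e / (2 * R)) :=
            mul_le_mul ht.le hu (norm_nonneg _) hR0.le
        _ = e / 2 := by
            field_simp
    have h2 := (Complex.abs_im_le_norm (t * u)).trans h1
    rw [Complex.add_im, show ζ.im + (t * u).im - y0 = (ζ.im - y0) + (t * u).im by ring]
    have h3 := abs_add_le (ζ.im - y0) (t * u).im
    linarith
  have hφ : DifferentiableOn ℂ (fun t : ℂ => b (ζ + t * u, γ + t * v) - m (γ + t * v))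
      (ball 0 R) := by
    refine DifferentiableOn.sub ?_ (hm.comp (by fun_prop) hmem)
    intro t ht
    have h1 := (hb (ζ + t * u, γ + t * v) (him t ht) (hmem t ht)).differentiableAt
    exact (DifferentiableAt.comp (g := b) (f := fun t : ℂ => (ζ + t * u, γ + t * v)) t h1
      (by fun_prop)).differentiableWithinAt
  have h1 := seg1 hR hφ fun t ht => hM (ζ + t * u, γ + t * v) (him t ht) (hmem t ht)
  simp only [one_mul, zero_mul, add_zero] at h1
  exact h1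

end Pool.Agent.MP_ae5b4e_an_A3
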