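import Pool.Agent.Lib.MP_ae5b4e_an_A3.Osc
import Pool.Agent.Lib.MP_ae5b4e_an_A3.Seg

/-! # A3: the first mode of a composition -/

set_option autoImplicit false

noncomputable section

namespace Pool.Agent.MP_ae5b4e_an_A3

open Complex Set Filter Topology Metric
open Pool.Agent.MP_ae5b4e_an_MERO (fo St fo_indep norm_fo_le hasSum_fo)
open Pool.Agent.MP_ae5b4e_an_A4 (am Per SN)

private theorem Step_mem {N y1 κ : ℝ} {T : ℂ → ℝ} {g0 : ℂ} {r : ℝ} {F : ℂ × ℂ → ℂ}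
    (_ : Per N y1 κ T g0 r F) {ζ γ : ℂ} (hγ : γ ∈ ball g0 r) (h1 : N * y1 < ζ.im)
    (h2 : ζ.im < N * T γ) : (ζ, γ) ∈ SN N y1 T g0 r := ⟨hγ, h1, h2⟩

private theorem Step_mul_im {N κ : ℝ} (hN : 0 < N) {h : ℂ} (hh : ‖h‖ ≤ κ) :
    |((N : ℂ) * h).im| ≤ N * κ := by
  have h1 := abs_im_le_norm ((N : ℂ) * h)
  rw [norm_mul, norm_real, Real.norm_eq_abs, abs_of_pos hN] at h1
  exact h1.trans (mul_le_mul_of_nonneg_left hh hN.le)

/-- Pointwise form. With `f₀ = am F (N y) 0 γ`, `h₀ = am G (N y) 0 γ`, `b₀ = am B (N y) 0`: on the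
line `Im ζ = N y`
`B (ζ + N G, γ + F) = b₀ (γ + f₀) + b₀' (γ + f₀) (F - f₀) + (B (ζ + N h₀, γ + f₀) - b₀ (γ + f₀)) +
error`.
Proof. `q₁ := exp (- 2 π (3/4) δ N) ≤ 1 / 100` (`N δ ≥ 2`), `q₂ := exp (- 2 π (5/8) δ N)`. By
`Per_osc` (`d = 3/4 δ N`) `‖F - f₀‖, ‖G - h₀‖ ≤ 4 κ q₁` on the line, `‖f₀‖, ‖h₀‖ ≤ κ`. For
`|Im ζ' - N y| < N δ / 8`, `γ' ∈ ball g0 r`: `‖B (ζ', γ') - b₀ γ'‖ ≤ 4 κ q₂` (`d = 5/8 δ N ≥ 1`).
If `κ = 0` everything vanishes; let `κ > 0`. `R := min δ r / (64 κ q₁) ≥ 4` (as `κ ≤ min δ r / 16`).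
`seg_mean` with `γ ↦ γ + f₀`, `v = F - f₀`: `‖v‖ ≤ 4 κ q₁ = min δ r / (16 R) ≤ r / (4 R)`, error `≤
64 κ / R ^ 2 = 64 κ (64 κ q₁) ^ 2 / (min δ r) ^ 2 ≤ 1024 κ q₁ ^ 2`.
`seg_osc` with `ζ ↦ ζ + N h₀`, `γ ↦ γ + f₀`, `u = N (G - h₀)`, `e = N δ / 8`: `‖u‖ ≤ N 4 κ q₁ = N
min δ r / (16 R) ≤ e / (2 R)`, `|Im (N h₀)| ≤ N κ ≤ N δ / 32 < e / 2`. Error `≤ 4 (4 κ q₂) / R =
16 κ q₂ 64 κ q₁ / min δ r ≤ 64 κ q₁ q₂`. Finally `q₁ ^ 2, q₁ q₂ ≤ exp (- 2 π (5/4) δ N)`. -/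
theorem step_pt {N y1 y δ κ r : ℝ} {g0 : ℂ} {T TB : ℂ → ℝ} {F G B : ℂ × ℂ → ℂ} (hN : 0 < N)
    (hδ : 0 < δ) (hr : 0 < r) (hNδ : 2 ≤ N * δ) (hF : Per N y1 κ T g0 r F)
    (hG : Per N y1 κ T g0 r G) (hB : Per N y1 κ TB g0 r B) (hy : y1 + 2 * δ ≤ y)
    (hT : ∀ γ ∈ ball g0 r, y + 3 / 4 * δ < T γ) (hTB : ∀ γ ∈ ball g0 r, y + 3 / 4 * δ < TB γ)
    (hκδ : κ ≤ δ / 64) (hκr : κ ≤ r / 64) {ζ γ : ℂ} (hζ : ζ.im = N * y)
    (hγ : γ ∈ ball g0 (r / 2)) :
    ‖B (ζ + N * G (ζ, γ), γ + F (ζ, γ)) -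
      (am B (N * y) 0 (γ + am F (N * y) 0 γ) +
        deriv (am B (N * y) 0) (γ + am F (N * y) 0 γ) * (F (ζ, γ) - am F (N * y) 0 γ) +
        (B (ζ + N * am G (N * y) 0 γ, γ + am F (N * y) 0 γ) -
          am B (N * y) 0 (γ + am F (N * y) 0 γ)))‖ ≤
      2000 * κ * Real.exp (-(2 * Real.pi * (5 / 4 * δ * N))) := by
  have hγr : γ ∈ ball g0 r := ball_subset_ball (by linarith) hγ
  have hNδ0 : 0 < N * δ := mul_pos hN hδ
  have hlow : N * y1 + 2 * (N * δ) ≤ N * y := by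
    have := mul_le_mul_of_nonneg_left hy hN.le
    linarith
  have hTN : ∀ γ ∈ ball g0 r, N * y + 3 / 4 * (N * δ) < N * T γ := by
    intro γ hγ
    have := mul_lt_mul_of_pos_left (hT γ hγ) hN
    linarith
  have hTBN : ∀ γ ∈ ball g0 r, N * y + 3 / 4 * (N * δ) < N * TB γ := by
    intro γ hγ
    have := mul_lt_mul_of_pos_left (hTB γ hγ) hN
    linarith
  have hyT : ∀ γ ∈ ball g0 r, N * y ∈ Ioo (N * y1) (N * T γ) := fun γ hγ =>
    ⟨by linarith, by linarith [hTN γ hγ]⟩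
  have hyTB : ∀ γ ∈ ball g0 r, N * y ∈ Ioo (N * y1) (N * TB γ) := fun γ hγ =>
    ⟨by linarith, by linarith [hTBN γ hγ]⟩
  have hmemF : (ζ, γ) ∈ SN N y1 T g0 r :=
    ⟨hγr, by rw [hζ]; exact (hyT γ hγr).1, by rw [hζ]; exact (hyT γ hγr).2⟩
  have hFb := hF.bd _ hmemF
  have hGb := hG.bd _ hmemF
  have hκ0 : 0 ≤ κ := (norm_nonneg _).trans hFb
  obtain ⟨f₀, hf₀⟩ : ∃ f₀, f₀ = am F (N * y) 0 γ := ⟨_, rfl⟩
  obtain ⟨h₀, hh₀⟩ : ∃ h₀, h₀ = am G (N * y) 0 γ := ⟨_, rfl⟩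
  have hf₀κ : ‖f₀‖ ≤ κ := by
    rw [hf₀]
    exact Per_zero hF hγr (hyT γ hγr)
  have hh₀κ : ‖h₀‖ ≤ κ := by
    rw [hh₀]
    exact Per_zero hG hγr (hyT γ hγr)
  rw [← hf₀, ← hh₀]
  rcases hκ0.eq_or_lt with hκz | hκp
  · rw [← hκz] at hFb hGb hf₀κ hh₀κ
    rw [norm_le_zero_iff.1 hFb, norm_le_zero_iff.1 hGb, norm_le_zero_iff.1 hf₀κ,
      norm_le_zero_iff.1 hh₀κ, ← hκz]
    simp
  -- the two small numbers
  obtain ⟨q₁, hq₁⟩ : ∃ q, q = Real.exp (-(2 * Real.pi * (3 / 4 * δ * N))) := ⟨_, rfl⟩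
  obtain ⟨q₂, hq₂⟩ : ∃ q, q = Real.exp (-(2 * Real.pi * (5 / 8 * δ * N))) := ⟨_, rfl⟩
  have hq₁0 : 0 < q₁ := by
    rw [hq₁]
    exact Real.exp_pos _
  have hq₂0 : 0 < q₂ := by
    rw [hq₂]
    exact Real.exp_pos _
  have hpi := Real.pi_gt_three
  have hNδ' : 2 ≤ δ * N := by linarith
  have hq₁4 : q₁ ≤ 1 / 4 := by
    have h1 : (4 : ℝ) ≤ Real.exp (2 * Real.pi * (3 / 4 * δ * N)) := by
      have h2 := Real.add_one_le_exp (2 * Real.pi * (3 / 4 * δ * N))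
      have h3 : (3 : ℝ) ≤ 2 * Real.pi * (3 / 4 * δ * N) := by
        have h4 : 2 * Real.pi * (3 / 4 * δ * N) = 3 / 2 * (Real.pi * (δ * N)) := by ring
        have h5 : 3 * 2 ≤ Real.pi * (δ * N) :=
          mul_le_mul hpi.le hNδ' (by norm_num) (by linarith)
        rw [h4]
        linarith
      linarith
    rw [hq₁, Real.exp_neg]
    rw [inv_le_comm₀ (Real.exp_pos _) (by norm_num)]
    linarith
  have hq12 : q₁ * q₂ ≤ Real.exp (-(2 * Real.pi * (5 / 4 * δ * N))) := by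
    rw [hq₁, hq₂, ← Real.exp_add]
    refine Real.exp_le_exp.2 ?_
    have : 0 ≤ Real.pi * (δ * N) := by positivity
    linarith
  have hq11 : q₁ * q₁ ≤ Real.exp (-(2 * Real.pi * (5 / 4 * δ * N))) := by
    rw [hq₁, ← Real.exp_add]
    refine Real.exp_le_exp.2 ?_
    have : 0 ≤ Real.pi * (δ * N) := by positivity
    linarith
  -- the oscillating parts of `F`, `G`
  have hoF : ‖F (ζ, γ) - f₀‖ ≤ 4 * κ * q₁ := by
    rw [hf₀, hq₁]
    exact Per_osc hF (by linarith) hγr (by rw [hζ]; linarith) (by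
      rw [hζ]
      have := hTN γ hγr
      linarith) (hyT γ hγr)
  have hoG : ‖G (ζ, γ) - h₀‖ ≤ 4 * κ * q₁ := by
    rw [hh₀, hq₁]
    exact Per_osc hG (by linarith) hγr (by rw [hζ]; linarith) (by
      rw [hζ]
      have := hTN γ hγr
      linarith) (hyT γ hγr)
  -- the disc
  obtain ⟨md, hmd⟩ : ∃ md, md = min δ r := ⟨_, rfl⟩
  have hmd0 : 0 < md := by
    rw [hmd]
    exact lt_min hδ hr
  have hmdδ : md ≤ δ := by
    rw [hmd]
    exact min_le_left _ _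
  have hmdr : md ≤ r := by
    rw [hmd]
    exact min_le_right _ _
  have hκmd : 64 * κ ≤ md := by
    rw [hmd]
    exact le_min (by linarith) (by linarith)
  obtain ⟨R, hR⟩ : ∃ R, R = md / (64 * κ * q₁) := ⟨_, rfl⟩
  have hden : 0 < 64 * κ * q₁ := by positivity
  have hR0 : 0 < R := by
    rw [hR]
    positivity
  have hRm : R * (64 * κ * q₁) = md := by
    rw [hR]
    field_simp
  have hR4 : 4 ≤ R := by
    rw [hR, le_div_iff₀ hden]
    have : 64 * κ * q₁ ≤ 64 * κ * (1 / 4) := mul_le_mul_of_nonneg_left hq₁4 (by positivity)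
    linarith
  -- `4 κ q₁ = md / (16 R)`
  have hvR : 4 * κ * q₁ = md / (16 * R) := by
    rw [← hRm]
    field_simp
    ring
  have hv : ‖F (ζ, γ) - f₀‖ ≤ r / (4 * R) := by
    refine hoF.trans ?_
    rw [hvR, div_le_div_iff₀ (by positivity) (by positivity)]
    have : md * (4 * R) ≤ r * (4 * R) := mul_le_mul_of_nonneg_right hmdr (by positivity)
    have h3 : 0 ≤ r * R := by positivity
    linarith
  have hγ' : ‖γ + f₀ - g0‖ < 3 / 4 * r := by
    have h1 : ‖γ - g0‖ < r / 2 := by simpa [dist_eq_norm] using hγ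
    have h2 : γ + f₀ - g0 = (γ - g0) + f₀ := by ring
    rw [h2]
    have h3 := norm_add_le (γ - g0) f₀
    linarith
  have hBdiff : DifferentiableOn ℂ (am B (N * y) 0) (ball g0 r) := hB.diff le_rfl hyTB 0
  -- mean part
  have e1 := seg_mean hr hR4 hBdiff (M := κ) (fun w hw => Per_zero hB hw (hyTB w hw)) hγ' hv
  -- oscillating part
  have hu : ‖(N : ℂ) * (G (ζ, γ) - h₀)‖ ≤ N * δ / 8 / (2 * R) := by
    rw [norm_mul, norm_real, Real.norm_eq_abs, abs_of_pos hN]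
    have h1 : N * ‖G (ζ, γ) - h₀‖ ≤ N * (md / (16 * R)) := by
      rw [← hvR]
      exact mul_le_mul_of_nonneg_left hoG hN.le
    refine h1.trans ?_
    have h2 : N * δ / 8 / (2 * R) = N * (δ / (16 * R)) := by
      field_simp
      ring
    rw [h2]
    gcongr
  have hosc : ∀ p : ℂ × ℂ, |p.1.im - N * y| < N * δ / 8 → p.2 ∈ ball g0 r →
      ‖B p - am B (N * y) 0 p.2‖ ≤ 4 * κ * q₂ := by
    rintro ⟨z, w⟩ h1 h2
    obtain ⟨h3, h4⟩ := abs_lt.1 h1
    have h3' : -(N * δ / 8) < z.im - N * y := h3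
    have h4' : z.im - N * y < N * δ / 8 := h4
    have h2' : w ∈ ball g0 r := h2
    have h5 := hTBN w h2'
    rw [hq₂]
    exact Per_osc hB (by linarith) h2' (by linarith) (by linarith) (hyTB w h2')
  have hBan : ∀ p : ℂ × ℂ, |p.1.im - N * y| < N * δ / 8 → p.2 ∈ ball g0 r →
      AnalyticAt ℂ B p := by
    rintro ⟨z, w⟩ h1 h2
    obtain ⟨h3, h4⟩ := abs_lt.1 h1
    have h3' : -(N * δ / 8) < z.im - N * y := h3
    have h4' : z.im - N * y < N * δ / 8 := h4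
    have h2' : w ∈ ball g0 r := h2
    have h5 := hTBN w h2'
    exact hB.an _ ⟨h2', by show N * y1 < z.im; linarith, by show z.im < N * TB w; linarith⟩
  have hζ' : |(ζ + N * h₀).im - N * y| < N * δ / 8 / 2 := by
    rw [add_im, hζ, add_sub_cancel_left]
    refine lt_of_le_of_lt (Step_mul_im hN hh₀κ) ?_
    have h1 : N * κ ≤ N * (δ / 64) := mul_le_mul_of_nonneg_left hκδ hN.le
    linarith
  have e2 := seg_osc (b := B) (m := am B (N * y) 0) (M := 4 * κ * q₂) hr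
    (show (2 : ℝ) ≤ R by linarith) (show 0 < N * δ / 8 by positivity) hBan hBdiff hosc hζ' hγ' hu hv
  have a1 : γ + f₀ + (F (ζ, γ) - f₀) = γ + F (ζ, γ) := by ring
  have a2 : ζ + (N : ℂ) * h₀ + N * (G (ζ, γ) - h₀) = ζ + N * G (ζ, γ) := by ring
  rw [a1] at e1 e2
  rw [a2] at e2
  -- the sum
  have b1 : 64 * κ / R ^ 2 ≤ 64 * κ * (q₁ * q₁) := by
    have h1 : 1 / R ≤ q₁ := by
      rw [div_le_iff₀ hR0]
      have h2 : (64 * κ) * (q₁ * R) = md := by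
        rw [← hRm]
        ring
      have h3 : 64 * κ * 1 ≤ (64 * κ) * (q₁ * R) := by
        rw [h2]
        linarith
      exact le_of_mul_le_mul_left h3 (by positivity)
    have h4 : (1 / R) * (1 / R) ≤ q₁ * q₁ := mul_le_mul h1 h1 (by positivity) hq₁0.le
    calc 64 * κ / R ^ 2 = 64 * κ * ((1 / R) * (1 / R)) := by
          field_simp
      _ ≤ 64 * κ * (q₁ * q₁) := mul_le_mul_of_nonneg_left h4 (by positivity)
  have b2 : 4 * (4 * κ * q₂) / R ≤ 16 * κ * (q₁ * q₂) := by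
    have h1 : 1 / R ≤ q₁ := by
      rw [div_le_iff₀ hR0]
      have h2 : (64 * κ) * (q₁ * R) = md := by
        rw [← hRm]
        ring
      have h3 : 64 * κ * 1 ≤ (64 * κ) * (q₁ * R) := by
        rw [h2]
        linarith
      exact le_of_mul_le_mul_left h3 (by positivity)
    calc 4 * (4 * κ * q₂) / R = 16 * κ * q₂ * (1 / R) := by
          field_simp
          ring
      _ ≤ 16 * κ * q₂ * q₁ := mul_le_mul_of_nonneg_left h1 (by positivity)
      _ = 16 * κ * (q₁ * q₂) := by ring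
  have b3 : 64 * κ * (q₁ * q₁) ≤
      64 * κ * Real.exp (-(2 * Real.pi * (5 / 4 * δ * N))) :=
    mul_le_mul_of_nonneg_left hq11 (by positivity)
  have b4 : 16 * κ * (q₁ * q₂) ≤
      16 * κ * Real.exp (-(2 * Real.pi * (5 / 4 * δ * N))) :=
    mul_le_mul_of_nonneg_left hq12 (by positivity)
  have b5 : 0 ≤ κ * Real.exp (-(2 * Real.pi * (5 / 4 * δ * N))) := by positivity
  have hsum : B (ζ + N * G (ζ, γ), γ + F (ζ, γ)) -
      (am B (N * y) 0 (γ + f₀) + deriv (am B (N * y) 0) (γ + f₀) * (F (ζ, γ) - f₀) +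
        (B (ζ + N * h₀, γ + f₀) - am B (N * y) 0 (γ + f₀))) =
      (am B (N * y) 0 (γ + F (ζ, γ)) - am B (N * y) 0 (γ + f₀) -
        deriv (am B (N * y) 0) (γ + f₀) * (F (ζ, γ) - f₀)) +
      ((B (ζ + N * G (ζ, γ), γ + F (ζ, γ)) - am B (N * y) 0 (γ + F (ζ, γ))) -
        (B (ζ + N * h₀, γ + f₀) - am B (N * y) 0 (γ + f₀))) := by ring
  rw [hsum]
  refine (norm_add_le _ _).trans ?_
  have hfin := add_le_add (e1.trans (b1.trans b3)) (e2.trans (b2.trans b4))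
  refine hfin.trans ?_
  linarith

private theorem Step_line {f : ℂ → ℂ} {a b : ℝ} (hf : DifferentiableOn ℂ f (St a b)) {y : ℝ}
    (hy : y ∈ Ioo a b) : Continuous fun s : ℝ => f (s + y * I) := by
  rw [← continuousOn_univ]
  refine hf.continuousOn.comp (f := fun s : ℝ => ((s : ℂ) + y * I)) (by fun_prop) fun s _ => ?_
  have : (((s : ℂ) + y * I).im) = y := by simp
  exact ⟨by rw [this]; exact hy.1, by rw [this]; exact hy.2⟩

private theorem Step_int {f : ℂ → ℂ} {y : ℝ} (hf : Continuous fun s : ℝ => f (s + y * I))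
    (m : ℤ) : IntervalIntegrable
      (fun s : ℝ => f (s + y * I) * exp (-(2 * Real.pi * I * m * (s + y * I))))
      MeasureTheory.volume 0 1 := by
  refine Continuous.intervalIntegrable ?_ _ _
  exact hf.mul (by fun_prop)

private theorem Step_fo_add {f g : ℂ → ℂ} {y : ℝ} (hf : Continuous fun s : ℝ => f (s + y * I))
    (hg : Continuous fun s : ℝ => g (s + y * I)) (m : ℤ) :
    fo (fun ζ => f ζ + g ζ) y m = fo f y m + fo g y m := by
  unfold fo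
  rw [← intervalIntegral.integral_add (Step_int hf m) (Step_int hg m)]
  refine intervalIntegral.integral_congr fun s _ => ?_
  show (f _ + g _) * _ = _
  rw [add_mul]

private theorem Step_fo_sub {f g : ℂ → ℂ} {y : ℝ} (hf : Continuous fun s : ℝ => f (s + y * I))
    (hg : Continuous fun s : ℝ => g (s + y * I)) (m : ℤ) :
    fo (fun ζ => f ζ - g ζ) y m = fo f y m - fo g y m := by
  unfold fo
  rw [← intervalIntegral.integral_sub (Step_int hf m) (Step_int hg m)]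
  refine intervalIntegral.integral_congr fun s _ => ?_
  show (f _ - g _) * _ = _
  rw [sub_mul]

private theorem Step_fo_mul (c : ℂ) (f : ℂ → ℂ) (y : ℝ) (m : ℤ) :
    fo (fun ζ => c * f ζ) y m = c * fo f y m := by
  unfold fo
  rw [← intervalIntegral.integral_const_mul]
  refine intervalIntegral.integral_congr fun s _ => ?_
  show c * f _ * _ = _
  rw [mul_assoc]

private theorem Step_fo_const (c : ℂ) (y : ℝ) : fo (fun _ => c) y (-1) = 0 := by
  unfold fo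
  have h1 : ∀ s : ℝ, c * exp (-(2 * Real.pi * I * ((-1 : ℤ) : ℂ) * (s + y * I))) =
      c * exp (-(2 * Real.pi * y)) * exp (2 * Real.pi * I * s) := by
    intro s
    rw [mul_assoc c, ← Complex.exp_add]
    congr 2
    push_cast
    linear_combination (2 * Real.pi * y : ℂ) * I_mul_I
  have h2 : (2 * Real.pi * I : ℂ) ≠ 0 := by
    simp [Real.pi_ne_zero]
  calc ∫ s in (0:ℝ)..1, c * exp (-(2 * Real.pi * I * ((-1 : ℤ) : ℂ) * (s + y * I)))
      = ∫ s in (0:ℝ)..1, c * exp (-(2 * Real.pi * y)) * exp (2 * Real.pi * I * s) :=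
        intervalIntegral.integral_congr fun s _ => h1 s
    _ = 0 := by
        rw [intervalIntegral.integral_const_mul, integral_exp_mul_complex h2]
        rw [ofReal_one, mul_one, ofReal_zero, mul_zero, Complex.exp_zero,
          Complex.exp_two_pi_mul_I, sub_self, zero_div, mul_zero]

/-- **FIRST MODE OF A COMPOSITION.** Proof. `am · (N y) (-1) γ = fo · (N y) (-1)` is linear
(the functions are continuous on the line `Im = N y`); the constants have no mode `-1`; `fo (fun ζ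
=> B (ζ + N h₀, γ + f₀)) = exp (- 2 π i N h₀) fo (B (·, γ + f₀))` by `fo_trans`; the error by
`norm_fo_le`. -/
theorem step_mode {N y1 y δ κ r : ℝ} {g0 : ℂ} {T TB : ℂ → ℝ} {F G B : ℂ × ℂ → ℂ} (hN : 0 < N)
    (hδ : 0 < δ) (hr : 0 < r) (hNδ : 2 ≤ N * δ) (hF : Per N y1 κ T g0 r F)
    (hG : Per N y1 κ T g0 r G) (hB : Per N y1 κ TB g0 r B) (hy : y1 + 2 * δ ≤ y)
    (hT : ∀ γ ∈ ball g0 r, y + 3 / 4 * δ < T γ) (hTB : ∀ γ ∈ ball g0 r, y + 3 / 4 * δ < TB γ)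
    (hκδ : κ ≤ δ / 64) (hκr : κ ≤ r / 64) {γ : ℂ} (hγ : γ ∈ ball g0 (r / 2)) :
    ‖am (fun p => B (p.1 + N * G p, p.2 + F p)) (N * y) (-1) γ -
      (deriv (am B (N * y) 0) (γ + am F (N * y) 0 γ) * am F (N * y) (-1) γ +
        exp (-(2 * Real.pi * I * (N * am G (N * y) 0 γ))) *
          am B (N * y) (-1) (γ + am F (N * y) 0 γ))‖ ≤
      2000 * κ * Real.exp (-(2 * Real.pi * N * (y + 5 / 4 * δ))) := by
  have hγr : γ ∈ ball g0 r := ball_subset_ball (by linarith) hγ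
  have hNδ0 : 0 < N * δ := mul_pos hN hδ
  have hlow : N * y1 + 2 * (N * δ) ≤ N * y := by
    have := mul_le_mul_of_nonneg_left hy hN.le
    linarith
  have hTBN : ∀ γ ∈ ball g0 r, N * y + 3 / 4 * (N * δ) < N * TB γ := by
    intro γ hγ
    have := mul_lt_mul_of_pos_left (hTB γ hγ) hN
    linarith
  have hyT : ∀ γ ∈ ball g0 r, N * y ∈ Ioo (N * y1) (N * T γ) := fun γ hγ => by
    have := mul_lt_mul_of_pos_left (hT γ hγ) hN
    exact ⟨by linarith, by linarith⟩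
  have hyTB : ∀ γ ∈ ball g0 r, N * y ∈ Ioo (N * y1) (N * TB γ) := fun γ hγ =>
    ⟨by linarith, by linarith [hTBN γ hγ]⟩
  have him : ∀ s : ℝ, ((s : ℂ) + ((N * y : ℝ) : ℂ) * I).im = N * y := by
    intro s
    simp
  have hmemF : ∀ s : ℝ, (((s : ℂ) + ((N * y : ℝ) : ℂ) * I), γ) ∈ SN N y1 T g0 r := by
    intro s
    refine ⟨hγr, ?_, ?_⟩
    · show N * y1 < ((s : ℂ) + ((N * y : ℝ) : ℂ) * I).im
      rw [him]
      exact (hyT γ hγr).1
    · show ((s : ℂ) + ((N * y : ℝ) : ℂ) * I).im < N * T γ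
      rw [him]
      exact (hyT γ hγr).2
  have hκ0 : 0 ≤ κ := (norm_nonneg _).trans (hF.bd _ (hmemF 0))
  obtain ⟨f₀, hf₀⟩ : ∃ f₀, f₀ = am F (N * y) 0 γ := ⟨_, rfl⟩
  obtain ⟨h₀, hh₀⟩ : ∃ h₀, h₀ = am G (N * y) 0 γ := ⟨_, rfl⟩
  have hf₀κ : ‖f₀‖ ≤ κ := by
    rw [hf₀]
    exact Per_zero hF hγr (hyT γ hγr)
  have hh₀κ : ‖h₀‖ ≤ κ := by
    rw [hh₀]
    exact Per_zero hG hγr (hyT γ hγr)
  have hγf : γ + f₀ ∈ ball g0 r := by
    have h1 : ‖γ - g0‖ < r / 2 := by simpa [dist_eq_norm] using hγ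
    rw [mem_ball, dist_eq_norm]
    have h2 : γ + f₀ - g0 = (γ - g0) + f₀ := by ring
    rw [h2]
    have h3 := norm_add_le (γ - g0) f₀
    linarith
  -- continuity on the line
  have cF : Continuous fun s : ℝ => F ((s : ℂ) + ((N * y : ℝ) : ℂ) * I, γ) :=
    Step_line (f := fun ζ => F (ζ, γ)) (hF.slice hγr).1 (hyT γ hγr)
  have cG : Continuous fun s : ℝ => G ((s : ℂ) + ((N * y : ℝ) : ℂ) * I, γ) :=
    Step_line (f := fun ζ => G (ζ, γ)) (hG.slice hγr).1 (hyT γ hγr)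
  have hNκ : N * κ ≤ N * δ / 64 := by
    have := mul_le_mul_of_nonneg_left hκδ hN.le
    linarith
  have cPhi : Continuous fun s : ℝ => B (((s : ℂ) + ((N * y : ℝ) : ℂ) * I) +
      N * G ((s : ℂ) + ((N * y : ℝ) : ℂ) * I, γ), γ + F ((s : ℂ) + ((N * y : ℝ) : ℂ) * I, γ)) := by
    rw [continuous_iff_continuousAt]
    intro s
    have hmem : (((s : ℂ) + ((N * y : ℝ) : ℂ) * I) +
        N * G ((s : ℂ) + ((N * y : ℝ) : ℂ) * I, γ),
        γ + F ((s : ℂ) + ((N * y : ℝ) : ℂ) * I, γ)) ∈ SN N y1 TB g0 r := by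
      have hg1 : γ + F ((s : ℂ) + ((N * y : ℝ) : ℂ) * I, γ) ∈ ball g0 r := by
        have h1 : ‖γ - g0‖ < r / 2 := by simpa [dist_eq_norm] using hγ
        rw [mem_ball, dist_eq_norm]
        have h2 : γ + F ((s : ℂ) + ((N * y : ℝ) : ℂ) * I, γ) - g0 =
          (γ - g0) + F ((s : ℂ) + ((N * y : ℝ) : ℂ) * I, γ) := by ring
        rw [h2]
        have h3 := norm_add_le (γ - g0) (F ((s : ℂ) + ((N * y : ℝ) : ℂ) * I, γ))
        have h4 := hF.bd _ (hmemF s)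
        linarith
      have hG1 := abs_le.1 (Step_mul_im hN (hG.bd _ (hmemF s)))
      have h5 := hTBN _ hg1
      refine ⟨hg1, ?_, ?_⟩
      · show N * y1 < (((s : ℂ) + ((N * y : ℝ) : ℂ) * I) +
          N * G ((s : ℂ) + ((N * y : ℝ) : ℂ) * I, γ)).im
        rw [add_im, him]
        linarith [hG1.1]
      · show (((s : ℂ) + ((N * y : ℝ) : ℂ) * I) +
          N * G ((s : ℂ) + ((N * y : ℝ) : ℂ) * I, γ)).im <
            N * TB (γ + F ((s : ℂ) + ((N * y : ℝ) : ℂ) * I, γ))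
        rw [add_im, him]
        linarith [hG1.2]
    have hc1 : Continuous fun s : ℝ => (((s : ℂ) + ((N * y : ℝ) : ℂ) * I) +
        N * G ((s : ℂ) + ((N * y : ℝ) : ℂ) * I, γ),
        γ + F ((s : ℂ) + ((N * y : ℝ) : ℂ) * I, γ)) := by
      refine Continuous.prodMk ?_ ?_
      · exact (by fun_prop : Continuous fun s : ℝ => (s : ℂ) + ((N * y : ℝ) : ℂ) * I).add
          (continuous_const.mul cG)
      · exact continuous_const.add cF
    exact ContinuousAt.comp (g := B) (hB.an _ hmem).continuousAt hc1.continuousAt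
  have hyh : N * y + (N * h₀ : ℂ).im ∈ Ioo (N * y1) (N * TB (γ + f₀)) := by
    have h1 := abs_le.1 (Step_mul_im hN hh₀κ)
    have h2 := hTBN _ hγf
    exact ⟨by linarith [h1.1], by linarith [h1.2]⟩
  have cB : Continuous fun s : ℝ =>
      B (((s : ℂ) + ((N * y : ℝ) : ℂ) * I) + N * h₀, γ + f₀) := by
    have h1 := Step_line (f := fun ζ => B (ζ, γ + f₀)) (hB.slice hγf).1 hyh
    have h2 := h1.comp (continuous_id.add (continuous_const (y := (N * h₀ : ℂ).re)))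
    refine h2.congr fun s => ?_
    show B ((((s + (N * h₀ : ℂ).re : ℝ)) : ℂ) + ((N * y + (N * h₀ : ℂ).im : ℝ) : ℂ) * I,
      γ + f₀) = _
    congr 2
    have h3 := re_add_im (N * h₀ : ℂ)
    rw [ofReal_add, ofReal_add]
    linear_combination h3
  rw [← hf₀, ← hh₀]
  -- the first mode of the main part
  have hmode : fo (fun ζ => am B (N * y) 0 (γ + f₀) +
      deriv (am B (N * y) 0) (γ + f₀) * (F (ζ, γ) - f₀) +
      (B (ζ + N * h₀, γ + f₀) - am B (N * y) 0 (γ + f₀))) (N * y) (-1) =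
      deriv (am B (N * y) 0) (γ + f₀) * am F (N * y) (-1) γ +
        exp (-(2 * Real.pi * I * (N * h₀))) * am B (N * y) (-1) (γ + f₀) := by
    rw [Step_fo_add
      (f := fun ζ => am B (N * y) 0 (γ + f₀) +
        deriv (am B (N * y) 0) (γ + f₀) * (F (ζ, γ) - f₀))
      (g := fun ζ => B (ζ + N * h₀, γ + f₀) - am B (N * y) 0 (γ + f₀))
      (continuous_const.add (continuous_const.mul (cF.sub continuous_const)))
      (cB.sub continuous_const),
      Step_fo_add (f := fun _ => am B (N * y) 0 (γ + f₀))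
      (g := fun ζ => deriv (am B (N * y) 0) (γ + f₀) * (F (ζ, γ) - f₀))
      continuous_const (continuous_const.mul (cF.sub continuous_const)),
      Step_fo_const, zero_add, Step_fo_mul, Step_fo_sub (f := fun ζ => F (ζ, γ))
      (g := fun _ => f₀) cF continuous_const, Step_fo_const, sub_zero,
      Step_fo_sub (f := fun ζ => B (ζ + N * h₀, γ + f₀))
      (g := fun _ => am B (N * y) 0 (γ + f₀)) cB continuous_const, Step_fo_const, sub_zero,
      fo_trans (f := fun ζ => B (ζ, γ + f₀)) (hB.slice hγf).1 (hB.slice hγf).2 (hyTB _ hγf) hyh]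
    unfold am
    congr 2
    congr 1
    push_cast
    ring
  rw [← hmode]
  have hPsi : Continuous fun s : ℝ => am B (N * y) 0 (γ + f₀) +
      deriv (am B (N * y) 0) (γ + f₀) * (F ((s : ℂ) + ((N * y : ℝ) : ℂ) * I, γ) - f₀) +
      (B (((s : ℂ) + ((N * y : ℝ) : ℂ) * I) + N * h₀, γ + f₀) -
        am B (N * y) 0 (γ + f₀)) :=
    (continuous_const.add (continuous_const.mul (cF.sub continuous_const))).add
      (cB.sub continuous_const)
  have hdiff := Step_fo_sub (f := fun ζ => B (ζ + N * G (ζ, γ), γ + F (ζ, γ)))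
    (g := fun ζ => am B (N * y) 0 (γ + f₀) +
      deriv (am B (N * y) 0) (γ + f₀) * (F (ζ, γ) - f₀) +
      (B (ζ + N * h₀, γ + f₀) - am B (N * y) 0 (γ + f₀))) (y := N * y) cPhi hPsi (-1)
  have hle := norm_fo_le (f := fun ζ => B (ζ + N * G (ζ, γ), γ + F (ζ, γ)) -
      (am B (N * y) 0 (γ + f₀) + deriv (am B (N * y) 0) (γ + f₀) * (F (ζ, γ) - f₀) +
      (B (ζ + N * h₀, γ + f₀) - am B (N * y) 0 (γ + f₀)))) (y := N * y)
    (M := 2000 * κ * Real.exp (-(2 * Real.pi * (5 / 4 * δ * N)))) (fun t ht => by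
      have := step_pt hN hδ hr hNδ hF hG hB hy hT hTB hκδ hκr ht hγ
      rw [← hf₀, ← hh₀] at this
      exact this) (-1)
  rw [hdiff] at hle
  refine hle.trans (le_of_eq ?_)
  rw [mul_assoc, ← Real.exp_add]
  congr 2
  push_cast
  ring

end Pool.Agent.MP_ae5b4e_an_A3
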